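import Mathlib

/-!
# Definitions for the conjecture of Shang on the characters of free alternative algebras

`K` is the ring of formal characters of the maximal torus of `PSL 3` (the group ring over the
integers of the root lattice with basis the simple roots `α₁, α₂`).  The ring `R` of the problem
(the Grothendieck ring of polynomial representations of `GL D`, completed by degree) is the ring of
symmetric formal power series in `D` variables: the class of a module is its formal character,
whose coefficient at a multidegree is the dimension of the weight space.  We work in the larger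
ring of all formal power series `MvPowerSeries (Fin D) ℤ`, and `MvPowerSeries (Fin D) K` in place
of the completion of `R ⊗ K (PSL 3)`.
-/

namespace Pool.Agent.W442.Shang

/-- The group ring of the root lattice of `PSL 3`; the pair `(p, q)` stands for the weight
`p α₁ + q α₂`. -/
abbrev K : Type := AddMonoidAlgebra ℤ (ℤ × ℤ)

/-- The formal exponential of a weight. -/
noncomputable def e (μ : ℤ × ℤ) : K := AddMonoidAlgebra.single μ 1

/-- The character of the adjoint module `L(α₁ + α₂)` of `PSL 3`: the zero weight has multiplicity
two, and the six roots have multiplicity one. -/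
noncomputable def adj : K :=
  2 * e (0, 0) + e (1, 0) + e (0, 1) + e (1, 1) + e (-1, 0) + e (0, -1) + e (-1, -1)

/-- The Weyl denominator, the product of `1 - e ^ (-α)` over the positive roots `α`. -/
noncomputable def weylDen : K := (1 - e (-1, 0)) * (1 - e (0, -1)) * (1 - e (-1, -1))

/-- The multiplicity of the irreducible module with dominant highest weight `μ` in a (virtual)
character `f`; by the character formula of Weyl this is the coefficient of `e ^ μ` in the product
of `f` and the Weyl denominator. -/
noncomputable def mult (μ : ℤ × ℤ) (f : K) : ℤ := (f * weylDen).coeff μ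

section

variable {σ : Type} [DecidableEq σ]

/-- The series `1 - x ^ m e ^ μ` as a unit of the ring of power series (for `m ≠ 0`; the value
for `m = 0` is never used). -/
noncomputable def oneSub (m : σ →₀ ℕ) (μ : ℤ × ℤ) : (MvPowerSeries σ K)ˣ :=
  if h : m = 0 then 1 else
    have h1 : MvPowerSeries.constantCoeff (1 - MvPowerSeries.monomial m (e μ)) = ((1 : Kˣ) : K) := by
      have h2 : MvPowerSeries.coeff (0 : σ →₀ ℕ) (MvPowerSeries.monomial m (e μ)) = 0 := by
        rw [MvPowerSeries.coeff_monomial, if_neg (fun h3 => h h3.symm)]
      rw [map_sub, map_one, ← MvPowerSeries.coeff_zero_eq_constantCoeff_apply, h2]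
      simp
    { val := 1 - MvPowerSeries.monomial m (e μ)
      inv := MvPowerSeries.invOfUnit (1 - MvPowerSeries.monomial m (e μ)) 1
      val_inv := MvPowerSeries.mul_invOfUnit _ _ h1
      inv_val := by rw [mul_comm]; exact MvPowerSeries.mul_invOfUnit _ _ h1 }

/-- The operation `λ` on series `f` without constant term: `λ f` is the product over all
`m ≠ 0` and all weights `μ` of `(1 - x ^ m e ^ μ) ^ (f m μ)`, where `f m μ` is the (integral)
coefficient of `x ^ m e ^ μ` in `f`.  The coefficient of `λ f` at `n` only involves the factors
with `m ≤ n`. -/
noncomputable def lam (f : MvPowerSeries σ K) : MvPowerSeries σ K := fun n =>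
  MvPowerSeries.coeff n
    ((∏ m ∈ (Finset.Iic n).erase 0, ∏ μ ∈ (MvPowerSeries.coeff m f).coeff.support,
      oneSub m μ ^ ((MvPowerSeries.coeff m f).coeff μ) : (MvPowerSeries σ K)ˣ) :
        MvPowerSeries σ K)

/-- The series of the multiplicities `[Φ : L(μ)]`. -/
noncomputable def multSeries (μ : ℤ × ℤ) (Φ : MvPowerSeries σ K) : MvPowerSeries σ ℤ :=
  fun n => mult μ (MvPowerSeries.coeff n Φ)

/-- `a [L(α₁ + α₂)] + b [L(0)]`. -/
noncomputable def comb (a b : MvPowerSeries σ ℤ) : MvPowerSeries σ K := fun n =>
  MvPowerSeries.coeff n a • adj + MvPowerSeries.coeff n b • (1 : K)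

/-- The defining properties of the pair `a(V), b(V)`; `D` is the dimension of `V`, and the class
of `V` is the sum of the variables. -/
structure IsShangPair {D : ℕ} (a b : MvPowerSeries (Fin D) ℤ) : Prop where
  /-- `a(V)` is in the augmentation ideal. -/
  a_zero : MvPowerSeries.constantCoeff a = 0
  /-- `b(V)` is in the augmentation ideal. -/
  b_zero : MvPowerSeries.constantCoeff b = 0
  /-- `[λ (a [L(α₁ + α₂)] + b [L(0)]) : [L(0)]] = 1`. -/
  triv : multSeries (0, 0) (lam (comb a b)) = 1
  /-- `[λ (a [L(α₁ + α₂)] + b [L(0)]) : [L(α₁ + α₂)]] = - [V]`. -/
  adjoint : multSeries (1, 1) (lam (comb a b)) = - ∑ i, MvPowerSeries.X i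

end

section

variable (k : Type) [Field k] (X : Type)

/-- `I` is a two-sided ideal of the free (not unital, not associative) algebra on `X` that
contains all elements `(a a) b - a (a b)` and `(b a) a - b (a a)`. -/
structure IsAltIdeal (I : Submodule k (FreeNonUnitalNonAssocAlgebra k X)) : Prop where
  /-- The quotient is left alternative. -/
  left_alt : ∀ a b, (a * a) * b - a * (a * b) ∈ I
  /-- The quotient is right alternative. -/
  right_alt : ∀ a b, (b * a) * a - b * (a * a) ∈ I
  /-- `I` is a left ideal. -/
  mul_left : ∀ a, ∀ x ∈ I, a * x ∈ I
  /-- `I` is a right ideal. -/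
  mul_right : ∀ a, ∀ x ∈ I, x * a ∈ I

/-- The smallest two-sided ideal with alternative quotient. -/
noncomputable def altIdeal : Submodule k (FreeNonUnitalNonAssocAlgebra k X) :=
  sInf {I | IsAltIdeal k X I}

/-- The free alternative algebra on `X` (as a vector space). -/
abbrev FreeAlt : Type := FreeNonUnitalNonAssocAlgebra k X ⧸ altIdeal k X

variable {X}

/-- The multidegree of a nonassociative word: how often each letter occurs. -/
noncomputable def content : FreeMagma X → (X →₀ ℕ)
  | .of x => Finsupp.single x 1
  | .mul u v => content u + content v

/-- The component of multidegree `m` of the free alternative algebra. -/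
noncomputable def altComp (m : X →₀ ℕ) : Submodule k (FreeAlt k X) :=
  (Submodule.span k {x : FreeNonUnitalNonAssocAlgebra k X |
    ∃ w : FreeMagma X, content w = m ∧ x = MonoidAlgebra.single w 1}).map (altIdeal k X).mkQ

/-- The formal character of the free alternative algebra on `V = k ^ D` as a module over
`GL D`: the coefficient at `m` is the dimension of the weight space of weight `m`. -/
noncomputable def chAlt (D : ℕ) : MvPowerSeries (Fin D) ℤ := fun m =>
  (Module.finrank k (altComp k (X := Fin D) m) : ℤ)

end

end Pool.Agent.W442.Shang
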