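import Mathlib
import Pool.Agent.W442.Shang.Defs

set_option linter.unusedSectionVars false

namespace Pool.Agent.W442.Shang

section

variable {σ : Type} [DecidableEq σ]

/-- The indicator multidegree of a finite set. -/
noncomputable def ind (S : Finset σ) : σ →₀ ℕ := ∑ i ∈ S, Finsupp.single i 1

lemma ind_apply (S : Finset σ) (i : σ) : ind S i = if i ∈ S then 1 else 0 := by
  unfold ind
  rw [Finsupp.finsetSum_apply]
  simp [Finsupp.single_apply]

lemma ind_support (S : Finset σ) : (ind S).support = S := by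
  ext i
  simp [ind_apply]

lemma ind_inj {S T : Finset σ} (h : ind S = ind T) : S = T := by
  rw [← ind_support S, h, ind_support]

lemma ind_empty : ind (∅ : Finset σ) = 0 := by simp [ind]

lemma ind_eq_zero {S : Finset σ} : ind S = 0 ↔ S = ∅ := by
  constructor
  · intro h; exact ind_inj (h.trans ind_empty.symm)
  · rintro rfl; exact ind_empty

lemma eq_ind_of_le {S : Finset σ} {m : σ →₀ ℕ} (h : m ≤ ind S) :
    m = ind m.support ∧ m.support ⊆ S := by
  have h1 : ∀ i, m i ≤ if i ∈ S then 1 else 0 := fun i => by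
    rw [← ind_apply]; exact h i
  constructor
  · ext i
    rw [ind_apply]
    have h2 := h1 i
    by_cases h3 : m i = 0
    · simp [h3]
    · have h4 : i ∈ m.support := by simpa using h3
      rw [if_pos h4]
      split_ifs at h2 <;> omega
  · intro i hi
    by_contra h2
    have h3 := h1 i
    rw [if_neg h2] at h3
    have : m i ≠ 0 := by simpa using hi
    omega

lemma ind_le {S T : Finset σ} (h : T ⊆ S) : ind T ≤ ind S := by
  intro i
  rw [ind_apply, ind_apply]
  split_ifs with h1 h2
  · exact le_rfl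
  · exact absurd (h h1) h2
  · exact Nat.zero_le _
  · exact le_rfl

lemma ind_add {S T : Finset σ} (h : T ⊆ S) : ind T + ind (S \ T) = ind S := by
  ext i
  rw [Finsupp.add_apply, ind_apply, ind_apply, ind_apply]
  by_cases h1 : i ∈ T
  · simp [h1, h h1]
  · by_cases h2 : i ∈ S <;> simp [h1, h2]

lemma coeff_ind_mul {A : Type} [CommRing A] (F G : MvPowerSeries σ A) (S : Finset σ) :
    MvPowerSeries.coeff (ind S) (F * G) =
      ∑ T ∈ S.powerset, MvPowerSeries.coeff (ind T) F * MvPowerSeries.coeff (ind (S \ T)) G := by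
  rw [MvPowerSeries.coeff_mul]
  symm
  refine Finset.sum_bij' (fun T _ => (ind T, ind (S \ T))) (fun p _ => p.1.support) ?_ ?_ ?_ ?_ ?_
  · intro T hT
    rw [Finset.mem_powerset] at hT
    rw [Finset.HasAntidiagonal.mem_antidiagonal]
    exact ind_add hT
  · intro p hp
    rw [Finset.HasAntidiagonal.mem_antidiagonal] at hp
    rw [Finset.mem_powerset]
    exact (eq_ind_of_le (hp ▸ le_self_add)).2
  · intro T hT
    exact ind_support T
  · intro p hp
    rw [Finset.HasAntidiagonal.mem_antidiagonal] at hp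
    obtain ⟨h1, h2⟩ := eq_ind_of_le (S := S) (m := p.1) (hp ▸ le_self_add)
    have h3 : ind p.1.support + ind (S \ p.1.support) = p.1 + p.2 := by
      rw [ind_add h2, hp]
    rw [← h1] at h3
    have h4 := add_left_cancel h3
    exact Prod.ext h1.symm h4
  · intro T hT
    rfl

/-- `F` has squarefree part `1 + v x ^ m`. -/
def SqFree (F : MvPowerSeries σ K) (m : σ →₀ ℕ) (v : K) : Prop :=
  ∀ T : Finset σ, MvPowerSeries.coeff (ind T) F =
    (if T = ∅ then 1 else 0) + (if ind T = m then v else 0)

lemma SqFree.one (m : σ →₀ ℕ) : SqFree (1 : MvPowerSeries σ K) m 0 := by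
  intro T
  rw [MvPowerSeries.coeff_one]
  by_cases h : T = ∅
  · subst h; simp [ind_empty]
  · have : ind T ≠ 0 := fun h1 => h (ind_eq_zero.1 h1)
    simp [h, this]

lemma SqFree.mul {F G : MvPowerSeries σ K} {m : σ →₀ ℕ} (hm : m ≠ 0) {v w : K}
    (hF : SqFree F m v) (hG : SqFree G m w) : SqFree (F * G) m (v + w) := by
  intro S
  rw [coeff_ind_mul]
  have h0 : MvPowerSeries.coeff (ind (∅ : Finset σ)) F = 1 := by
    rw [hF ∅, if_pos rfl, if_neg, add_zero]
    rw [ind_empty]; exact fun h => hm h.symm
  have h0' : MvPowerSeries.coeff (ind (∅ : Finset σ)) G = 1 := by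
    rw [hG ∅, if_pos rfl, if_neg, add_zero]
    rw [ind_empty]; exact fun h => hm h.symm
  by_cases hS : S = ∅
  · subst hS
    simp only [Finset.powerset_empty, Finset.sum_singleton, Finset.empty_sdiff]
    rw [h0, h0', if_pos trivial, if_neg (by rw [ind_empty]; exact fun h => hm h.symm)]
    simp
  · have h1 : ∀ T ∈ S.powerset, T ≠ ∅ → T ≠ S →
        MvPowerSeries.coeff (ind T) F * MvPowerSeries.coeff (ind (S \ T)) G = 0 := by
      intro T hT hT1 hT2
      rw [Finset.mem_powerset] at hT
      have h2 : S \ T ≠ ∅ := fun h => hT2 (Finset.Subset.antisymm hT (Finset.sdiff_eq_empty_iff_subset.1 h))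
      rw [hF T, hG (S \ T), if_neg hT1, if_neg h2]
      by_cases h3 : ind T = m
      · by_cases h4 : ind (S \ T) = m
        · exfalso
          have h5 := ind_inj (h3.trans h4.symm)
          obtain ⟨i, hi⟩ := Finset.nonempty_iff_ne_empty.2 hT1
          have h6 : i ∈ S \ T := h5 ▸ hi
          exact (Finset.mem_sdiff.1 h6).2 hi
        · simp [h4]
      · simp [h3]
    have h2 : ∑ T ∈ S.powerset, MvPowerSeries.coeff (ind T) F * MvPowerSeries.coeff (ind (S \ T)) G
        = ∑ T ∈ ({∅, S} : Finset (Finset σ)),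
          MvPowerSeries.coeff (ind T) F * MvPowerSeries.coeff (ind (S \ T)) G := by
      symm
      apply Finset.sum_subset
      · intro T hT
        rw [Finset.mem_insert, Finset.mem_singleton] at hT
        rcases hT with rfl | rfl
        · simp
        · simp
      · intro T hT hT1
        rw [Finset.mem_insert, Finset.mem_singleton, not_or] at hT1
        exact h1 T hT hT1.1 hT1.2
    rw [h2, Finset.sum_pair (fun h => hS h.symm), Finset.sdiff_empty, Finset.sdiff_self, h0, h0',
      hF S, hG S, if_neg hS]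
    by_cases h3 : ind S = m
    · simp only [h3, if_true]; ring
    · simp only [h3, if_false]; ring

lemma SqFree.inv {u : (MvPowerSeries σ K)ˣ} {m : σ →₀ ℕ} (hm : m ≠ 0) {v : K}
    (hF : SqFree (u : MvPowerSeries σ K) m v) : SqFree ((u⁻¹ : (MvPowerSeries σ K)ˣ) : MvPowerSeries σ K) m (-v) := by
  intro S
  induction S using Finset.strongInduction with
  | H S ih =>
    have h1 : MvPowerSeries.coeff (ind S) ((u : MvPowerSeries σ K) * ((u⁻¹ : (MvPowerSeries σ K)ˣ) : MvPowerSeries σ K)) = if S = ∅ then 1 else 0 := by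
      rw [Units.mul_inv, MvPowerSeries.coeff_one]
      by_cases h : S = ∅
      · subst h; simp [ind_empty]
      · have : ind S ≠ 0 := fun h1 => h (ind_eq_zero.1 h1)
        simp [h, this]
    have h0 : MvPowerSeries.coeff (ind (∅ : Finset σ)) (u : MvPowerSeries σ K) = 1 := by
      rw [hF ∅, if_pos rfl, if_neg, add_zero]
      rw [ind_empty]; exact fun h => hm h.symm
    rw [coeff_ind_mul] at h1
    by_cases hS : S = ∅
    · subst hS
      simp only [Finset.powerset_empty, Finset.sum_singleton, Finset.empty_sdiff] at h1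
      rw [h0, one_mul, if_pos trivial] at h1
      rw [h1, if_pos rfl, if_neg (by rw [ind_empty]; exact fun h => hm h.symm)]
      simp
    · have h2 : ∑ T ∈ S.powerset, MvPowerSeries.coeff (ind T) (u : MvPowerSeries σ K) *
            MvPowerSeries.coeff (ind (S \ T)) ((u⁻¹ : (MvPowerSeries σ K)ˣ) : MvPowerSeries σ K)
          = ∑ T ∈ ({∅, S} : Finset (Finset σ)),
            MvPowerSeries.coeff (ind T) (u : MvPowerSeries σ K) *
            MvPowerSeries.coeff (ind (S \ T)) ((u⁻¹ : (MvPowerSeries σ K)ˣ) : MvPowerSeries σ K) := by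
        symm
        apply Finset.sum_subset
        · intro T hT
          rw [Finset.mem_insert, Finset.mem_singleton] at hT
          rcases hT with rfl | rfl
          · simp
          · simp
        · intro T hT hT1
          rw [Finset.mem_insert, Finset.mem_singleton, not_or] at hT1
          rw [Finset.mem_powerset] at hT
          have h3 : S \ T ≠ ∅ := fun h => hT1.2 (Finset.Subset.antisymm hT (Finset.sdiff_eq_empty_iff_subset.1 h))
          have h4 : S \ T ⊂ S := by
            refine Finset.ssubset_iff_subset_ne.2 ⟨Finset.sdiff_subset, fun h => hT1.1 ?_⟩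
            rw [Finset.sdiff_eq_self_iff_disjoint] at h
            exact Finset.disjoint_self_iff_empty _ |>.1 (h.symm.mono_right hT)
          rw [ih _ h4, hF T, if_neg hT1.1, if_neg h3]
          by_cases h5 : ind T = m
          · by_cases h6 : ind (S \ T) = m
            · exfalso
              have h7 := ind_inj (h5.trans h6.symm)
              obtain ⟨i, hi⟩ := Finset.nonempty_iff_ne_empty.2 hT1.1
              have h8 : i ∈ S \ T := h7 ▸ hi
              exact (Finset.mem_sdiff.1 h8).2 hi
            · simp [h6]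
          · simp [h5]
      have h00 : MvPowerSeries.coeff (ind (∅ : Finset σ)) ((u⁻¹ : (MvPowerSeries σ K)ˣ) : MvPowerSeries σ K) = 1 := by
        rw [ih ∅ (Finset.empty_ssubset.2 (Finset.nonempty_iff_ne_empty.2 hS)), if_pos rfl, if_neg,
          add_zero]
        rw [ind_empty]; exact fun h => hm h.symm
      rw [h2, Finset.sum_pair (fun h => hS h.symm), Finset.sdiff_empty, Finset.sdiff_self, h0, h00,
        one_mul, mul_one, if_neg hS, hF S, if_neg hS, zero_add] at h1
      rw [if_neg hS, zero_add]
      by_cases h5 : ind S = m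
      · rw [if_pos h5] at h1 ⊢
        exact eq_neg_of_add_eq_zero_left h1
      · rw [if_neg h5] at h1 ⊢
        simpa using h1

lemma SqFree.zpow {u : (MvPowerSeries σ K)ˣ} {m : σ →₀ ℕ} (hm : m ≠ 0) {v : K}
    (hF : SqFree (u : MvPowerSeries σ K) m v) (c : ℤ) :
    SqFree ((u ^ c : (MvPowerSeries σ K)ˣ) : MvPowerSeries σ K) m (c • v) := by
  induction c with
  | zero => simpa using SqFree.one m
  | succ n ih =>
    have h1 := SqFree.mul hm ih hF
    rw [← Units.val_mul, ← zpow_add_one] at h1
    convert h1 using 1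
    rw [add_smul, one_smul]
  | pred n ih =>
    have h1 := SqFree.mul hm ih (SqFree.inv hm hF)
    rw [← Units.val_mul, ← zpow_sub_one] at h1
    convert h1 using 1
    rw [sub_smul, one_smul, sub_eq_add_neg]

lemma sqFree_oneSub {m : σ →₀ ℕ} (hm : m ≠ 0) (μ : ℤ × ℤ) :
    SqFree ((oneSub m μ : (MvPowerSeries σ K)ˣ) : MvPowerSeries σ K) m (-(e μ)) := by
  intro T
  have h1 : ((oneSub m μ : (MvPowerSeries σ K)ˣ) : MvPowerSeries σ K)
      = 1 - MvPowerSeries.monomial m (e μ) := by
    unfold oneSub
    rw [dif_neg hm]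
  rw [h1, map_sub, MvPowerSeries.coeff_monomial, MvPowerSeries.coeff_one]
  by_cases h : T = ∅
  · subst h
    have h2 : ind (∅ : Finset σ) ≠ m := by rw [ind_empty]; exact fun h => hm h.symm
    rw [if_pos ind_empty, if_neg h2, if_pos rfl, if_neg h2]
    simp
  · have h2 : ind T ≠ 0 := fun h1 => h (ind_eq_zero.1 h1)
    rw [if_neg h2, if_neg h]
    by_cases h3 : ind T = m
    · simp [h3]
    · simp [h3]

/-- The factor of `lam f` at the multidegree `m`. -/
noncomputable def fac (f : MvPowerSeries σ K) (m : σ →₀ ℕ) : (MvPowerSeries σ K)ˣ :=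
  ∏ μ ∈ (MvPowerSeries.coeff m f).coeff.support,
      oneSub m μ ^ ((MvPowerSeries.coeff m f).coeff μ)

lemma sum_coeff (x : K) : ∑ μ ∈ x.coeff.support, x.coeff μ • e μ = x := by
  unfold e
  ext μ
  simp only [AddMonoidAlgebra.coeff_sum, AddMonoidAlgebra.coeff_smul, Finsupp.finsetSum_apply,
    Finsupp.smul_apply, AddMonoidAlgebra.coeff_single, Finsupp.single_apply]
  simp
  intro h
  exact h.symm

lemma sqFree_prod {m : σ →₀ ℕ} (hm : m ≠ 0) (s : Finset (ℤ × ℤ)) (c : ℤ × ℤ → ℤ) :
    SqFree ((∏ μ ∈ s, oneSub m μ ^ (c μ) : (MvPowerSeries σ K)ˣ) : MvPowerSeries σ K) m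
      (-∑ μ ∈ s, c μ • e μ) := by
  induction s using Finset.induction_on with
  | empty => simpa using SqFree.one m
  | insert μ s hμ ih =>
    rw [Finset.prod_insert hμ, Finset.sum_insert hμ, Units.val_mul]
    have h1 := SqFree.mul hm (SqFree.zpow hm (sqFree_oneSub hm μ) (c μ)) ih
    convert h1 using 1
    rw [smul_neg, neg_add]

lemma sqFree_fac (f : MvPowerSeries σ K) {m : σ →₀ ℕ} (hm : m ≠ 0) :
    SqFree ((fac f m : (MvPowerSeries σ K)ˣ) : MvPowerSeries σ K) m
      (-(MvPowerSeries.coeff m f)) := by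
  have h1 := sqFree_prod (σ := σ) hm (MvPowerSeries.coeff m f).coeff.support
    (fun μ => (MvPowerSeries.coeff m f).coeff μ)
  rwa [sum_coeff] at h1

end

end Pool.Agent.W442.Shang
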