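import Mathlib
import Pool.Agent.W442.Shang.Rec

set_option linter.unusedSectionVars false

namespace Pool.Agent.W442.Shang

section

variable {σ : Type} [DecidableEq σ]

lemma coeff_ind_one (T : Finset σ) :
    MvPowerSeries.coeff (ind T) (1 : MvPowerSeries σ K) = if T = ∅ then 1 else 0 := by
  rw [MvPowerSeries.coeff_one]
  by_cases h : T = ∅
  · subst h; simp [ind_empty]
  · have : ind T ≠ 0 := fun h1 => h (ind_eq_zero.1 h1)
    simp [h, this]

/-- Products of series without the variable `i`. -/
lemma prod_noVar (f : MvPowerSeries σ K) (i : σ) (M : Finset (σ →₀ ℕ))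
    (hM : ∀ m ∈ M, m ≠ 0 ∧ m i = 0) (T : Finset σ) (hT : i ∈ T) :
    MvPowerSeries.coeff (ind T)
      ((∏ m ∈ M, fac f m : (MvPowerSeries σ K)ˣ) : MvPowerSeries σ K) = 0 := by
  induction M using Finset.induction_on generalizing T with
  | empty =>
    rw [Finset.prod_empty, Units.val_one, coeff_ind_one, if_neg]
    rintro rfl
    simp at hT
  | insert m M hm ih =>
    rw [Finset.prod_insert hm, Units.val_mul, coeff_ind_mul]
    apply Finset.sum_eq_zero
    intro T' hT'
    rw [Finset.mem_powerset] at hT'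
    have hM' := fun m hm => hM m (Finset.mem_insert_of_mem hm)
    by_cases h1 : i ∈ T'
    · obtain ⟨h2, h3⟩ := hM m (Finset.mem_insert_self _ _)
      rw [sqFree_fac f h2 T', if_neg, if_neg, add_zero, zero_mul]
      · intro h4
        have h5 := ind_apply T' i
        rw [h4, h3, if_pos h1] at h5
        omega
      · rintro rfl
        simp at h1
    · rw [ih hM' (T \ T') (Finset.mem_sdiff.2 ⟨hT, h1⟩), mul_zero]

/-- Products of series in which all squarefree monomials contain the variable `i`. -/
lemma prod_var (f : MvPowerSeries σ K) (i : σ) (M : Finset (σ →₀ ℕ))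
    (hM : ∀ m ∈ M, m i ≠ 0) (T : Finset σ) :
    MvPowerSeries.coeff (ind T)
      ((∏ m ∈ M, fac f m : (MvPowerSeries σ K)ˣ) : MvPowerSeries σ K) =
      (if T = ∅ then 1 else 0) - (if ind T ∈ M then MvPowerSeries.coeff (ind T) f else 0) := by
  induction M using Finset.induction_on generalizing T with
  | empty =>
    rw [Finset.prod_empty, Units.val_one, coeff_ind_one]
    simp
  | insert m M hm ih =>
    have hM' := fun m hm => hM m (Finset.mem_insert_of_mem hm)
    have hmi : m i ≠ 0 := hM m (Finset.mem_insert_self _ _)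
    have hm0 : m ≠ 0 := by rintro rfl; simp at hmi
    have hempty : ∀ M' : Finset (σ →₀ ℕ), (∀ m ∈ M', m i ≠ 0) → ind (∅ : Finset σ) ∉ M' := by
      intro M' h h1
      have := h _ h1
      rw [ind_empty] at this
      simp at this
    have key : ∀ T : Finset σ, i ∉ T → ∀ M' : Finset (σ →₀ ℕ), (∀ m ∈ M', m i ≠ 0) → ind T ∉ M' := by
      intro T hT M' h h1
      have := h _ h1
      rw [ind_apply, if_neg hT] at this
      exact this rfl
    rw [Finset.prod_insert hm, Units.val_mul, coeff_ind_mul]
    by_cases hS : T = ∅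
    · subst hS
      simp only [Finset.powerset_empty, Finset.sum_singleton, Finset.empty_sdiff]
      rw [ih hM', sqFree_fac f hm0, if_neg (hempty _ hM'), if_neg (hempty _ hM)]
      have : ind (∅ : Finset σ) ≠ m := by rw [ind_empty]; exact fun h => hm0 h.symm
      rw [if_neg this]
      simp
    · have h2 : ∑ T' ∈ T.powerset, MvPowerSeries.coeff (ind T') (fac f m : MvPowerSeries σ K) *
            MvPowerSeries.coeff (ind (T \ T')) ((∏ m ∈ M, fac f m : (MvPowerSeries σ K)ˣ) : MvPowerSeries σ K)
          = ∑ T' ∈ ({∅, T} : Finset (Finset σ)),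
            MvPowerSeries.coeff (ind T') (fac f m : MvPowerSeries σ K) *
            MvPowerSeries.coeff (ind (T \ T')) ((∏ m ∈ M, fac f m : (MvPowerSeries σ K)ˣ) : MvPowerSeries σ K) := by
        symm
        apply Finset.sum_subset
        · intro T' hT'
          rw [Finset.mem_insert, Finset.mem_singleton] at hT'
          rcases hT' with rfl | rfl
          · simp
          · simp
        · intro T' hT' hT1
          rw [Finset.mem_insert, Finset.mem_singleton, not_or] at hT1
          rw [Finset.mem_powerset] at hT'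
          have h3 : T \ T' ≠ ∅ := fun h => hT1.2 (Finset.Subset.antisymm hT' (Finset.sdiff_eq_empty_iff_subset.1 h))
          rw [ih hM', sqFree_fac f hm0, if_neg hT1.1, if_neg h3]
          by_cases h5 : i ∈ T'
          · have h6 : i ∉ T \ T' := fun h => (Finset.mem_sdiff.1 h).2 h5
            rw [if_neg (key _ h6 M hM')]
            simp
          · have h6 : ind T' ≠ m := by
              intro h
              have h7 := ind_apply T' i
              rw [if_neg h5, h] at h7
              exact hmi h7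
            rw [if_neg h6]
            simp
      rw [h2, Finset.sum_pair (fun h => hS h.symm), Finset.sdiff_empty, Finset.sdiff_self,
        ih hM', ih hM', sqFree_fac f hm0, sqFree_fac f hm0]
      have h7 : ind (∅ : Finset σ) ≠ m := by rw [ind_empty]; exact fun h => hm0 h.symm
      rw [if_neg h7, if_neg (hempty _ hM'), if_neg hS]
      by_cases h8 : ind T = m
      · have h9 : ind T ∉ M := h8 ▸ hm
        have h12 : ind T ∈ insert m M := by rw [h8]; exact Finset.mem_insert_self _ _
        rw [if_neg h9, if_pos h8, if_pos h12, h8]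
        simp
      · rw [if_neg h8]
        have h10 : (ind T ∈ insert m M) ↔ (ind T ∈ M) := by
          rw [Finset.mem_insert]
          exact ⟨fun h => h.resolve_left h8, Or.inr⟩
        simp only [h10]
        by_cases h11 : ind T ∈ M
        · simp [h11]
        · simp [h11]

lemma prod_notLe (f : MvPowerSeries σ K) (S : Finset σ) (M : Finset (σ →₀ ℕ))
    (hM : ∀ m ∈ M, m ≠ 0 ∧ ¬ m ≤ ind S) (T : Finset σ) (hT : T ⊆ S) :
    MvPowerSeries.coeff (ind T)
      ((∏ m ∈ M, fac f m : (MvPowerSeries σ K)ˣ) : MvPowerSeries σ K) =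
      if T = ∅ then 1 else 0 := by
  induction M using Finset.induction_on generalizing T with
  | empty =>
    rw [Finset.prod_empty, Units.val_one, coeff_ind_one]
  | insert m M hm ih =>
    have hM' := fun m hm => hM m (Finset.mem_insert_of_mem hm)
    obtain ⟨h1, h2⟩ := hM m (Finset.mem_insert_self _ _)
    rw [Finset.prod_insert hm, Units.val_mul, coeff_ind_mul]
    rw [Finset.sum_eq_single ∅]
    · rw [Finset.sdiff_empty, ih hM' T hT, sqFree_fac f h1, if_pos rfl,
        if_neg (by rw [ind_empty]; exact fun h => h1 h.symm)]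
      simp
    · intro T' hT' h3
      rw [Finset.mem_powerset] at hT'
      rw [sqFree_fac f h1, if_neg h3, if_neg, add_zero, zero_mul]
      intro h4
      exact h2 (h4 ▸ ind_le (hT'.trans hT))
    · intro h
      simp at h

lemma coeff_prod_eq_lam (f : MvPowerSeries σ K) (T : Finset σ) (M : Finset (σ →₀ ℕ))
    (hM : (Finset.Iic (ind T)).erase 0 ⊆ M) (h0 : 0 ∉ M) :
    MvPowerSeries.coeff (ind T)
      ((∏ m ∈ M, fac f m : (MvPowerSeries σ K)ˣ) : MvPowerSeries σ K) =
      MvPowerSeries.coeff (ind T) (lam f) := by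
  have h1 : MvPowerSeries.coeff (ind T) (lam f) = MvPowerSeries.coeff (ind T)
      ((∏ m ∈ (Finset.Iic (ind T)).erase 0, fac f m : (MvPowerSeries σ K)ˣ) : MvPowerSeries σ K) :=
    rfl
  rw [h1, ← Finset.prod_sdiff hM, Units.val_mul, coeff_ind_mul, Finset.sum_eq_single ∅]
  · rw [Finset.sdiff_empty, prod_notLe f T _ _ ∅ (Finset.empty_subset _), if_pos rfl, one_mul]
    intro m hm
    rw [Finset.mem_sdiff, Finset.mem_erase, Finset.mem_Iic] at hm
    have : m ≠ 0 := fun h => h0 (h ▸ hm.1)
    exact ⟨this, fun h => hm.2 ⟨this, h⟩⟩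
  · intro T' hT' h3
    rw [Finset.mem_powerset] at hT'
    rw [prod_notLe f T _ _ T' hT', if_neg h3, zero_mul]
    intro m hm
    rw [Finset.mem_sdiff, Finset.mem_erase, Finset.mem_Iic] at hm
    have : m ≠ 0 := fun h => h0 (h ▸ hm.1)
    exact ⟨this, fun h => hm.2 ⟨this, h⟩⟩
  · intro h
    simp at h

lemma lam_empty (f : MvPowerSeries σ K) : MvPowerSeries.coeff (ind (∅ : Finset σ)) (lam f) = 1 := by
  rw [← coeff_prod_eq_lam f ∅ ∅ (by rw [ind_empty]; intro m hm; simp at hm) (by simp)]
  rw [Finset.prod_empty, Units.val_one, coeff_ind_one, if_pos rfl]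

/-- The recursion for the squarefree coefficients of `lam f`. -/
lemma lam_rec (f : MvPowerSeries σ K) (S : Finset σ) (i : σ) (hi : i ∈ S) :
    MvPowerSeries.coeff (ind S) (lam f) =
      - ∑ T ∈ (S.erase i).powerset, MvPowerSeries.coeff (ind (insert i T)) f *
        MvPowerSeries.coeff (ind (S \ insert i T)) (lam f) := by
  set M := (Finset.Iic (ind S)).erase 0 with hMdef
  have hM0 : (0 : σ →₀ ℕ) ∉ M := by simp [hMdef]
  have h1 : MvPowerSeries.coeff (ind S) (lam f) = MvPowerSeries.coeff (ind S)
      ((∏ m ∈ M, fac f m : (MvPowerSeries σ K)ˣ) : MvPowerSeries σ K) := rfl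
  rw [h1, ← Finset.prod_filter_mul_prod_filter_not M (fun m => m i ≠ 0), Units.val_mul,
    coeff_ind_mul]
  have hA : ∀ m ∈ M.filter (fun m => m i ≠ 0), m i ≠ 0 := fun m hm => (Finset.mem_filter.1 hm).2
  have hB : ∀ m ∈ M.filter (fun m => ¬ m i ≠ 0), m ≠ 0 ∧ m i = 0 := fun m hm => by
    obtain ⟨h2, h3⟩ := Finset.mem_filter.1 hm
    exact ⟨fun h => hM0 (h ▸ h2), not_not.1 h3⟩
  -- the coefficients of the second factor at sets without `i`
  have hC : ∀ T : Finset σ, T ⊆ S → i ∉ T → MvPowerSeries.coeff (ind T)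
      ((∏ m ∈ M.filter (fun m => ¬ m i ≠ 0), fac f m : (MvPowerSeries σ K)ˣ) : MvPowerSeries σ K) =
      MvPowerSeries.coeff (ind T) (lam f) := by
    intro T hT hiT
    apply coeff_prod_eq_lam
    · intro m hm
      rw [Finset.mem_erase, Finset.mem_Iic] at hm
      rw [Finset.mem_filter, hMdef, Finset.mem_erase, Finset.mem_Iic]
      refine ⟨⟨hm.1, hm.2.trans (ind_le hT)⟩, ?_⟩
      rw [not_not]
      have := hm.2 i
      rw [ind_apply, if_neg hiT] at this
      omega
    · exact fun h => hM0 (Finset.mem_filter.1 h).1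
  have hsplit : ∀ T ∈ S.powerset, i ∉ T → MvPowerSeries.coeff (ind T)
        ((∏ m ∈ M.filter (fun m => m i ≠ 0), fac f m : (MvPowerSeries σ K)ˣ) : MvPowerSeries σ K) *
      MvPowerSeries.coeff (ind (S \ T))
        ((∏ m ∈ M.filter (fun m => ¬ m i ≠ 0), fac f m : (MvPowerSeries σ K)ˣ) : MvPowerSeries σ K)
        = 0 := by
    intro T hT hiT
    rw [prod_noVar f i _ hB (S \ T) (Finset.mem_sdiff.2 ⟨hi, hiT⟩), mul_zero]
  have hS : S = insert i (S.erase i) := (Finset.insert_erase hi).symm
  have hpow : ∑ T ∈ S.powerset, MvPowerSeries.coeff (ind T)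
        ((∏ m ∈ M.filter (fun m => m i ≠ 0), fac f m : (MvPowerSeries σ K)ˣ) : MvPowerSeries σ K) *
      MvPowerSeries.coeff (ind (S \ T))
        ((∏ m ∈ M.filter (fun m => ¬ m i ≠ 0), fac f m : (MvPowerSeries σ K)ˣ) : MvPowerSeries σ K)
      = ∑ T ∈ (S.erase i).powerset, MvPowerSeries.coeff (ind (insert i T))
        ((∏ m ∈ M.filter (fun m => m i ≠ 0), fac f m : (MvPowerSeries σ K)ˣ) : MvPowerSeries σ K) *
      MvPowerSeries.coeff (ind (S \ insert i T))
        ((∏ m ∈ M.filter (fun m => ¬ m i ≠ 0), fac f m : (MvPowerSeries σ K)ˣ) : MvPowerSeries σ K) := by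
    conv_lhs => rw [hS]
    rw [Finset.sum_powerset_insert (Finset.notMem_erase i S)]
    rw [← hS]
    rw [Finset.sum_eq_zero, zero_add]
    intro T hT
    rw [Finset.mem_powerset] at hT
    apply hsplit T
    · rw [Finset.mem_powerset]
      exact hT.trans (Finset.erase_subset _ _)
    · exact fun h => Finset.notMem_erase i S (hT h)
  rw [hpow, ← Finset.sum_neg_distrib]
  apply Finset.sum_congr rfl
  intro T hT
  rw [Finset.mem_powerset] at hT
  have hTS : insert i T ⊆ S := by
    intro j hj
    rcases Finset.mem_insert.1 hj with rfl | hj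
    · exact hi
    · exact Finset.mem_of_mem_erase (hT hj)
  rw [prod_var f i _ hA, hC (S \ insert i T) Finset.sdiff_subset (by simp)]
  have h5 : insert i T ≠ ∅ := Finset.insert_ne_empty i T
  have h6 : ind (insert i T) ∈ M.filter (fun m => m i ≠ 0) := by
    rw [Finset.mem_filter, hMdef, Finset.mem_erase, Finset.mem_Iic]
    refine ⟨⟨fun h => h5 (ind_eq_zero.1 h), ind_le hTS⟩, ?_⟩
    rw [ind_apply, if_pos (Finset.mem_insert_self _ _)]
    exact one_ne_zero
  rw [if_neg h5, if_pos h6]
  ring

end

end Pool.Agent.W442.Shang
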