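import Mathlib
import Pool.Agent.W442.Shang.Rec2

set_option linter.unusedSectionVars false

namespace Pool.Agent.W442.Shang

section

variable (k : Type) [Field k] {X : Type}

/-- The associative word of a nonassociative word. -/
def toWord : FreeMagma X → FreeMonoid X
  | .of x => FreeMonoid.of x
  | .mul u v => toWord u * toWord v

/-- The map to the free associative algebra. -/
noncomputable def phi : FreeNonUnitalNonAssocAlgebra k X →ₙₐ[k] MonoidAlgebra k (FreeMonoid X) :=
  FreeNonUnitalNonAssocAlgebra.lift k (fun x => MonoidAlgebra.single (FreeMonoid.of x) 1)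

lemma phi_single (w : FreeMagma X) : phi k (MonoidAlgebra.single w 1) =
    MonoidAlgebra.single (toWord w) 1 := by
  induction w with
  | ih1 x => exact FreeNonUnitalNonAssocAlgebra.lift_of_apply k _ x
  | ih2 u v hu hv =>
    have h1 : (MonoidAlgebra.single (u * v) 1 : FreeNonUnitalNonAssocAlgebra k X) =
        MonoidAlgebra.single u 1 * MonoidAlgebra.single v 1 := by
      rw [MonoidAlgebra.single_mul_single, one_mul]
    rw [h1, map_mul, hu, hv, MonoidAlgebra.single_mul_single, one_mul]
    rfl

/-- The kernel of `phi`. -/
noncomputable def kerPhi : Submodule k (FreeNonUnitalNonAssocAlgebra k X) :=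
  LinearMap.ker ((phi k : FreeNonUnitalNonAssocAlgebra k X →ₙₐ[k] _) :
    FreeNonUnitalNonAssocAlgebra k X →ₗ[k] MonoidAlgebra k (FreeMonoid X))

lemma mem_kerPhi (x : FreeNonUnitalNonAssocAlgebra k X) : x ∈ kerPhi k ↔ phi k x = 0 :=
  LinearMap.mem_ker

lemma kerPhi_alt : IsAltIdeal k X (kerPhi k) where
  left_alt a b := by
    rw [mem_kerPhi, map_sub, map_mul, map_mul, map_mul, map_mul, mul_assoc, sub_self]
  right_alt a b := by
    rw [mem_kerPhi, map_sub, map_mul, map_mul, map_mul, map_mul, mul_assoc, sub_self]
  mul_left a x hx := by
    rw [mem_kerPhi] at hx ⊢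
    rw [map_mul, hx, mul_zero]
  mul_right a x hx := by
    rw [mem_kerPhi] at hx ⊢
    rw [map_mul, hx, zero_mul]

lemma altIdeal_le : altIdeal k X ≤ kerPhi k := sInf_le (kerPhi_alt k)

/-- The map from the free alternative algebra to the free associative algebra. -/
noncomputable def phiBar : FreeAlt k X →ₗ[k] MonoidAlgebra k (FreeMonoid X) :=
  (altIdeal k X).liftQ ((phi k : FreeNonUnitalNonAssocAlgebra k X →ₙₐ[k] _) :
    FreeNonUnitalNonAssocAlgebra k X →ₗ[k] MonoidAlgebra k (FreeMonoid X)) (altIdeal_le k)

lemma phiBar_mk (x : FreeNonUnitalNonAssocAlgebra k X) :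
    phiBar k ((altIdeal k X).mkQ x) = phi k x := rfl

/-- A nonassociative word with given associative word. -/
def magmaWord : X → List X → FreeMagma X
  | x, [] => .of x
  | x, y :: l => .mul (.of x) (magmaWord y l)

lemma toWord_magmaWord (x : X) (l : List X) : toWord (magmaWord x l) = FreeMonoid.ofList (x :: l) := by
  induction l generalizing x with
  | nil => rfl
  | cons y l ih =>
    rw [magmaWord, toWord, ih]
    rfl

lemma content_magmaWord (x : X) (l : List X) : content (magmaWord x l) =
    ((x :: l).map (fun y => Finsupp.single y 1)).sum := by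
  induction l generalizing x with
  | nil => simp [magmaWord, content]
  | cons y l ih =>
    rw [magmaWord, content, ih, content]
    simp

/-- The set of words of a given multidegree is finite. -/
lemma finite_words [Finite X] (n : ℕ) : {w : FreeMagma X | w.length ≤ n}.Finite := by
  induction n with
  | zero =>
    convert Set.finite_empty
    ext w
    have := FreeMagma.length_pos w
    simp only [Set.mem_ofPred_eq, Set.mem_empty_iff_false, iff_false]
    omega
  | succ n ih =>
    have h1 : {w : FreeMagma X | w.length ≤ n + 1} ⊆ Set.range FreeMagma.of ∪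
        Set.image2 (fun u v => u * v) {w : FreeMagma X | w.length ≤ n}
          {w : FreeMagma X | w.length ≤ n} := by
      intro w hw
      rw [Set.mem_ofPred_eq] at hw
      cases w with
      | of x => exact Or.inl ⟨x, rfl⟩
      | mul u v =>
        right
        have h2 : (FreeMagma.mul u v).length = u.length + v.length := rfl
        have h3 := FreeMagma.length_pos u
        have h4 := FreeMagma.length_pos v
        exact ⟨u, by rw [Set.mem_ofPred_eq]; omega, v, by rw [Set.mem_ofPred_eq]; omega, rfl⟩
    exact ((Set.finite_range _).union (Set.Finite.image2 _ ih ih)).subset h1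

lemma length_eq_content (w : FreeMagma X) : w.length = (content w).sum (fun _ c => c) := by
  induction w with
  | ih1 x =>
    have h1 : content (FreeMagma.of x) = Finsupp.single x 1 := rfl
    rw [h1, Finsupp.sum_single_index rfl]
    rfl
  | ih2 u v hu hv =>
    have h2 : (u * v).length = u.length + v.length := rfl
    have h1 : content (u * v) = content u + content v := rfl
    rw [h2, h1, Finsupp.sum_add_index' (fun _ => rfl) (fun _ _ _ => rfl), hu, hv]

lemma finite_content [Finite X] (m : X →₀ ℕ) : {w : FreeMagma X | content w = m}.Finite := by
  apply (finite_words (X := X) (m.sum (fun _ c => c))).subset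
  intro w hw
  rw [Set.mem_ofPred_eq] at hw ⊢
  rw [length_eq_content, hw]

instance finite_altComp [Finite X] (m : X →₀ ℕ) : Module.Finite k (altComp k m) := by
  unfold altComp
  have h1 : {x : FreeNonUnitalNonAssocAlgebra k X |
      ∃ w : FreeMagma X, content w = m ∧ x = MonoidAlgebra.single w 1}.Finite := by
    have h2 := (finite_content (X := X) m).image
      (fun w => (MonoidAlgebra.single w 1 : FreeNonUnitalNonAssocAlgebra k X))
    apply h2.subset
    rintro x ⟨w, hw, rfl⟩
    exact ⟨w, hw, rfl⟩
  haveI : Module.Finite k (Submodule.span k {x : FreeNonUnitalNonAssocAlgebra k X |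
      ∃ w : FreeMagma X, content w = m ∧ x = MonoidAlgebra.single w 1}) :=
    Module.Finite.span_of_finite k h1
  infer_instance

lemma content_perm [DecidableEq X] (S : Finset X) (x : X) (l : List X)
    (h : (x :: l).Perm S.toList) : content (magmaWord x l) = ind S := by
  rw [content_magmaWord]
  have h1 := h.map (fun y => (Finsupp.single y 1 : X →₀ ℕ))
  rw [h1.sum_eq, ind, Finset.sum_map_toList]

/-- The multilinear component of the free alternative algebra has at least the dimension of the
multilinear component of the free associative algebra. -/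
theorem factorial_le [Finite X] [DecidableEq X] (S : Finset X) (hS : S.Nonempty) :
    S.card.factorial ≤ Module.finrank k (altComp k (ind S)) := by
  classical
  let P : Finset (List X) := S.toList.permutations.toFinset
  have hP : P.card = S.card.factorial := by
    rw [List.toFinset_card_of_nodup (List.nodup_permutations _ (Finset.nodup_toList S)),
      List.length_permutations, Finset.length_toList]
  have hmem : ∀ l ∈ P, l.Perm S.toList := by
    intro l hl
    rw [List.mem_toFinset, List.mem_permutations] at hl
    exact hl
  have hv : ∀ l : P, ∃ v : altComp k (ind S), phiBar k (v : FreeAlt k X) =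
      MonoidAlgebra.single (FreeMonoid.ofList (l : List X)) 1 := by
    rintro ⟨l, hl⟩
    have h1 := hmem l hl
    cases l with
    | nil =>
      exfalso
      have h2 := h1.length_eq
      rw [Finset.length_toList] at h2
      have := Finset.card_pos.2 hS
      simp at h2
      omega
    | cons x l =>
      refine ⟨⟨(altIdeal k X).mkQ (MonoidAlgebra.single (magmaWord x l) 1), ?_⟩, ?_⟩
      · apply Submodule.mem_map_of_mem
        exact Submodule.subset_span ⟨_, content_perm S x l h1, rfl⟩
      · rw [phiBar_mk, phi_single, toWord_magmaWord]
  choose v hv using hv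
  have hli : LinearIndependent k v := by
    rw [linearIndependent_iff']
    intro s g hg i hi
    have h1 := congrArg (fun z : altComp k (ind S) => phiBar k (z : FreeAlt k X)) hg
    simp only [Submodule.coe_sum, Submodule.coe_smul, map_sum, map_smul, hv] at h1
    rw [Submodule.coe_zero, map_zero] at h1
    have h2 := congrArg (fun z => z.coeff (FreeMonoid.ofList (i : List X))) h1
    simp only [MonoidAlgebra.coeff_sum, MonoidAlgebra.coeff_smul, Finsupp.finsetSum_apply,
      Finsupp.smul_apply, MonoidAlgebra.coeff_single, Finsupp.single_apply,
      MonoidAlgebra.coeff_zero, Finsupp.coe_zero, Pi.zero_apply] at h2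
    rw [Finset.sum_eq_single i] at h2
    · simpa using h2
    · intro j _ hji
      rw [if_neg, smul_zero]
      intro h
      exact hji (Subtype.ext (FreeMonoid.ofList.injective h))
    · intro h
      exact absurd hi h
  have h3 := hli.fintype_card_le_finrank
  rw [Fintype.card_coe, hP] at h3
  exact h3

end

end Pool.Agent.W442.Shang
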