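import Mathlib
import Pool.Agent.W442.Shang.Defs

set_option linter.unusedSectionVars false

namespace Pool.Agent.W442.Shang

lemma e_mul (μ ν : ℤ × ℤ) : e μ * e ν = e (μ + ν) := by
  unfold e
  rw [AddMonoidAlgebra.single_mul_single, one_mul]

lemma e_zero : e (0, 0) = 1 := rfl

lemma coeff_e_mul (μ ν : ℤ × ℤ) (f : K) : (e μ * f).coeff ν = f.coeff (ν - μ) := by
  unfold e
  rw [AddMonoidAlgebra.coeff_single_mul_apply, one_mul]
  congr 1
  abel

/-- A list of coefficients as a polynomial in `e ^ α₂`. -/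
noncomputable def evR : List ℤ → K
  | [] => 0
  | c :: r => c • 1 + e (0, 1) * evR r

/-- A list of lists of coefficients as a polynomial in `e ^ α₁` and `e ^ α₂`. -/
noncomputable def evL : List (List ℤ) → K
  | [] => 0
  | r :: L => evR r + e (1, 0) * evL L

/-- Sum of lists. -/
def addR : List ℤ → List ℤ → List ℤ
  | [], b => b
  | a, [] => a
  | a :: r, b :: s => (a + b) :: addR r s

/-- Sum of lists of lists. -/
def addL : List (List ℤ) → List (List ℤ) → List (List ℤ)
  | [], b => b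
  | a, [] => a
  | a :: r, b :: s => addR a b :: addL r s

/-- Multiplication by the second variable. -/
def sy (L : List (List ℤ)) : List (List ℤ) := L.map (fun r => 0 :: r)

/-- Multiplication by the first variable. -/
def sx (L : List (List ℤ)) : List (List ℤ) := [] :: L

lemma evR_add : ∀ a b : List ℤ, evR (addR a b) = evR a + evR b
  | [], b => by simp [addR, evR]
  | a :: r, [] => by simp [addR, evR]
  | a :: r, b :: s => by
    simp only [addR, evR, evR_add r s, add_smul, mul_add]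
    abel

lemma evL_add : ∀ a b : List (List ℤ), evL (addL a b) = evL a + evL b
  | [], b => by simp [addL, evL]
  | a :: r, [] => by simp [addL, evL]
  | a :: r, b :: s => by
    simp only [addL, evL, evL_add r s, evR_add, mul_add]
    abel

lemma evL_sx (L : List (List ℤ)) : evL (sx L) = e (1, 0) * evL L := by
  simp [sx, evL, evR]

lemma evL_sy (L : List (List ℤ)) : evL (sy L) = e (0, 1) * evL L := by
  induction L with
  | nil => simp [sy, evL]
  | cons r L ih =>
    have h : sy (r :: L) = (0 :: r) :: sy L := rfl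
    rw [h, evL, evL, ih, evR]
    rw [zero_smul]
    ring

/-- Multiplication by `e ^ (α₁ + α₂)` times the adjoint character. -/
def mulP (L : List (List ℤ)) : List (List ℤ) :=
  addL L (addL (sx L) (addL (sy L) (addL (sx (sy L)) (addL (sx (sy L))
    (addL (sx (sx (sy L))) (addL (sx (sy (sy L))) (sx (sx (sy (sy L)))))))))) 

lemma adj_eq : e (1, 1) * adj = 1 + e (1, 0) + e (0, 1) + 2 * (e (1, 0) * e (0, 1)) +
    e (1, 0) * (e (1, 0) * e (0, 1)) + e (1, 0) * (e (0, 1) * e (0, 1)) +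
    e (1, 0) * (e (1, 0) * (e (0, 1) * e (0, 1))) := by
  unfold adj
  simp only [mul_add, e_mul, mul_left_comm (e (1, 1)) 2]
  have h1 : ((1, 1) : ℤ × ℤ) + (0, 0) = (1, 0) + (0, 1) := rfl
  have h2 : ((1, 1) : ℤ × ℤ) + (-1, -1) = (0, 0) := rfl
  have h3 : ((1, 1) : ℤ × ℤ) + (-1, 0) = (0, 1) := rfl
  have h4 : ((1, 1) : ℤ × ℤ) + (0, -1) = (1, 0) := rfl
  have h5 : ((1, 1) : ℤ × ℤ) + (1, 0) = (1, 0) + ((1, 0) + (0, 1)) := rfl
  have h6 : ((1, 1) : ℤ × ℤ) + (0, 1) = (1, 0) + ((0, 1) + (0, 1)) := rfl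
  have h7 : ((1, 1) : ℤ × ℤ) + (1, 1) = (1, 0) + ((1, 0) + ((0, 1) + (0, 1))) := rfl
  rw [h1, h2, h3, h4, h5, h6, h7, e_zero]
  ring

lemma evL_mulP (L : List (List ℤ)) : evL (mulP L) = e (1, 1) * adj * evL L := by
  unfold mulP
  simp only [evL_add, evL_sx, evL_sy]
  rw [adj_eq]
  ring

/-- The Weyl denominator times `e ^ (2 α₁ + 2 α₂)`. -/
def D0 : List (List ℤ) := [[-1, 1], [1, 0, -1], [0, -1, 1]]

lemma evL_D0 : evL D0 = e (2, 2) * weylDen := by
  unfold D0 weylDen
  simp only [evL, evR]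
  have h1 : e (2, 2) = e (1, 0) * e (1, 0) * (e (0, 1) * e (0, 1)) := by
    simp only [e_mul]; rfl
  have h2 : e (1, 0) * e (-1, 0) = 1 := by rw [e_mul, ← e_zero]; rfl
  have h3 : e (0, 1) * e (0, -1) = 1 := by rw [e_mul, ← e_zero]; rfl
  have h4 : e (-1, -1) = e (-1, 0) * e (0, -1) := by rw [e_mul]; rfl
  rw [h1, h4]
  have h5 : e (1, 0) * e (1, 0) * (e (0, 1) * e (0, 1)) *
      ((1 - e (-1, 0)) * (1 - e (0, -1)) * (1 - e (-1, 0) * e (0, -1))) =
      (e (1, 0) - e (1, 0) * e (-1, 0)) * (e (0, 1) - e (0, 1) * e (0, -1)) *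
        (e (1, 0) * e (0, 1) - (e (1, 0) * e (-1, 0)) * (e (0, 1) * e (0, -1))) := by ring
  rw [h5, h2, h3]
  simp only [neg_smul, one_smul, zero_smul]
  ring

/-- The table of `χ ^ k` times the Weyl denominator, shifted. -/
def tab : ℕ → List (List ℤ)
  | 0 => D0
  | k + 1 => mulP (tab k)

lemma evL_tab (k : ℕ) : evL (tab k) = e ((k : ℤ) + 2, (k : ℤ) + 2) * (adj ^ k * weylDen) := by
  induction k with
  | zero => simpa [tab] using evL_D0
  | succ k ih =>
    rw [tab, evL_mulP, ih]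
    have h1 : e (((k + 1 : ℕ) : ℤ) + 2, ((k + 1 : ℕ) : ℤ) + 2) =
        e (1, 1) * e ((k : ℤ) + 2, (k : ℤ) + 2) := by
      rw [e_mul]
      congr 1
      ext <;> simp <;> ring
    rw [h1, pow_succ]
    ring

lemma coeff_one_K (i j : ℤ) : (1 : K).coeff (i, j) = if (i, j) = (0, 0) then 1 else 0 := by
  rw [← e_zero]
  unfold e
  rw [AddMonoidAlgebra.coeff_single, Finsupp.single_apply]
  simp only [eq_comm]

lemma coeff_evR_neg (r : List ℤ) (i j : ℤ) (hj : j < 0) : (evR r).coeff (i, j) = 0 := by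
  induction r generalizing j with
  | nil => simp [evR]
  | cons c r ih =>
    rw [evR, AddMonoidAlgebra.coeff_add, Finsupp.add_apply, coeff_e_mul,
      AddMonoidAlgebra.coeff_smul, Finsupp.smul_apply, coeff_one_K]
    have h2 : ((i, j) : ℤ × ℤ) - (0, 1) = (i, j - 1) := by simp
    rw [h2, ih _ (by omega)]
    have h3 : ¬ ((i, j) : ℤ × ℤ) = (0, 0) := by
      intro h
      have := congrArg Prod.snd h
      simp only at this
      omega
    rw [if_neg h3]
    simp

lemma coeff_evR (r : List ℤ) (i j : ℤ) (hj : 0 ≤ j) :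
    (evR r).coeff (i, j) = if i = 0 then r.getD j.toNat 0 else 0 := by
  induction r generalizing j with
  | nil => simp [evR]
  | cons c r ih =>
    rw [evR, AddMonoidAlgebra.coeff_add, Finsupp.add_apply, coeff_e_mul,
      AddMonoidAlgebra.coeff_smul, Finsupp.smul_apply, coeff_one_K]
    have h2 : ((i, j) : ℤ × ℤ) - (0, 1) = (i, j - 1) := by simp
    rw [h2]
    by_cases hj0 : j = 0
    · subst hj0
      rw [coeff_evR_neg r i (0 - 1) (by omega)]
      by_cases hi : i = 0
      · simp [hi]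
      · simp [hi]
    · have h3 : 0 ≤ j - 1 := by omega
      rw [ih (j - 1) h3]
      have h4 : j.toNat = (j - 1).toNat + 1 := by omega
      rw [h4]
      by_cases hi : i = 0
      · simp [hi, hj0]
      · simp [hi]

lemma coeff_evL_neg (L : List (List ℤ)) (i j : ℤ) (hi : i < 0) (hj : 0 ≤ j) :
    (evL L).coeff (i, j) = 0 := by
  induction L generalizing i with
  | nil => simp [evL]
  | cons r L ih =>
    rw [evL, AddMonoidAlgebra.coeff_add, Finsupp.add_apply, coeff_e_mul]
    have h2 : ((i, j) : ℤ × ℤ) - (1, 0) = (i - 1, j) := by simp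
    rw [h2, ih _ (by omega), coeff_evR _ _ _ hj, if_neg (by omega), add_zero]

lemma coeff_evL (L : List (List ℤ)) (i j : ℤ) (hi : 0 ≤ i) (hj : 0 ≤ j) :
    (evL L).coeff (i, j) = (L.getD i.toNat []).getD j.toNat 0 := by
  induction L generalizing i with
  | nil => simp [evL]
  | cons r L ih =>
    rw [evL, AddMonoidAlgebra.coeff_add, Finsupp.add_apply, coeff_e_mul]
    have h2 : ((i, j) : ℤ × ℤ) - (1, 0) = (i - 1, j) := by simp
    rw [h2, coeff_evR _ _ _ hj]
    by_cases hi0 : i = 0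
    · subst hi0
      rw [coeff_evL_neg _ _ _ (by omega) hj]
      simp
    · rw [ih _ (by omega), if_neg hi0, zero_add]
      have h4 : i.toNat = (i - 1).toNat + 1 := by omega
      rw [h4]
      simp

lemma mult_pow (k p : ℕ) : mult ((p : ℤ), (p : ℤ)) (adj ^ k) =
    ((tab k).getD (p + k + 2) []).getD (p + k + 2) 0 := by
  unfold mult
  have h1 := evL_tab k
  have h2 := coeff_evL (tab k) ((p : ℤ) + k + 2) ((p : ℤ) + k + 2) (by omega) (by omega)
  rw [h1, coeff_e_mul] at h2
  have h3 : (((p : ℤ) + k + 2, (p : ℤ) + k + 2) : ℤ × ℤ) - ((k : ℤ) + 2, (k : ℤ) + 2) =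
      ((p : ℤ), (p : ℤ)) := by
    ext <;> simp
  have h4 : ((p : ℤ) + k + 2).toNat = p + k + 2 := by omega
  rw [h3, h4] at h2
  exact h2

/-- Multiplicities of the trivial module in the powers of the adjoint module. -/
lemma multI (k : ℕ) (hk : k < 10) : mult (0, 0) (adj ^ k) =
    [1, 0, 1, 2, 8, 32, 145, 702, 3598, 19280].getD k 0 := by
  have h := mult_pow k 0
  have h2 : ∀ k < 10, ((tab k).getD (0 + k + 2) []).getD (0 + k + 2) 0 =
      [1, 0, 1, 2, 8, 32, 145, 702, 3598, 19280].getD k 0 := by decide +kernel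
  rw [h2 k hk] at h
  exact_mod_cast h

/-- Multiplicities of the adjoint module in the powers of the adjoint module. -/
lemma multJ (k : ℕ) (hk : k < 10) : mult (1, 1) (adj ^ k) =
    [0, 1, 2, 8, 32, 145, 702, 3598, 19280, 107160].getD k 0 := by
  have h := mult_pow k 1
  have h2 : ∀ k < 10, ((tab k).getD (1 + k + 2) []).getD (1 + k + 2) 0 =
      [0, 1, 2, 8, 32, 145, 702, 3598, 19280, 107160].getD k 0 := by decide +kernel
  rw [h2 k hk] at h
  exact_mod_cast h

end Pool.Agent.W442.Shang
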