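import Mathlib
import Pool.Agent.W442.Shang.Rec2
import Pool.Agent.W442.Shang.Eval

set_option linter.unusedSectionVars false

namespace Pool.Agent.W442.Shang

/-- `mult μ` as a linear map. -/
noncomputable def multHom (μ : ℤ × ℤ) : K →ₗ[ℤ] ℤ where
  toFun := mult μ
  map_add' x y := by
    unfold mult
    rw [add_mul, AddMonoidAlgebra.coeff_add, Finsupp.add_apply]
  map_smul' c x := by
    unfold mult
    rw [smul_mul_assoc, AddMonoidAlgebra.coeff_smul, Finsupp.smul_apply]
    rfl

lemma multHom_apply (μ : ℤ × ℤ) (x : K) : multHom μ x = mult μ x := rfl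

/-- The predicted multilinear dimensions. -/
def al : ℕ → ℤ := fun n => [0, 1, 2, 7, 32, 175, 1080, 7196, 49616, 336364].getD n 0

/-- The multilinear coefficients of `b(V)`. -/
def be : ℕ → ℤ := fun n => [0, 0, 1, 4, 21, 128, 875, 6480, 50372].getD n 0

/-- The squarefree coefficients of `Φ`. -/
noncomputable def G : ℕ → K
  | 0 => 1
  | 1 => - adj
  | 2 => -1 - 2 * adj + adj ^ 2
  | 3 => -4 - 4 * adj + 6 * adj ^ 2 - adj ^ 3
  | 4 => -18 - 4 * adj + 34 * adj ^ 2 - 12 * adj ^ 3 + adj ^ 4
  | 5 => -88 + 65 * adj + 200 * adj ^ 2 - 120 * adj ^ 3 + 20 * adj ^ 4 - adj ^ 5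
  | 6 => -415 + 1028 * adj + 1150 * adj ^ 2 - 1180 * adj ^ 3 + 305 * adj ^ 4 - 30 * adj ^ 5
      + adj ^ 6
  | 7 => -1272 + 11970 * adj + 5222 * adj ^ 2 - 11725 * adj ^ 3 + 4340 * adj ^ 4 - 644 * adj ^ 5
      + 42 * adj ^ 6 - adj ^ 7
  | 8 => 9450 + 128056 * adj - 6300 * adj ^ 2 - 116592 * adj ^ 3 + 60900 * adj ^ 4
      - 12376 * adj ^ 5 + 1204 * adj ^ 6 - 56 * adj ^ 7 + adj ^ 8
  | _ => 0

section

variable {D : ℕ} (a b : MvPowerSeries (Fin D) ℤ)

lemma coeff_comb (S : Finset (Fin D)) : MvPowerSeries.coeff (ind S) (comb a b) =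
    MvPowerSeries.coeff (ind S) a • adj + MvPowerSeries.coeff (ind S) b • (1 : K) := rfl

lemma step (n : ℕ) (S : Finset (Fin D)) (hS : S.card = n + 1)
    (IH : ∀ T : Finset (Fin D), 1 ≤ T.card → T.card ≤ n →
      MvPowerSeries.coeff (ind T) a = al T.card ∧ MvPowerSeries.coeff (ind T) b = be T.card)
    (IHg : ∀ T : Finset (Fin D), T.card ≤ n →
      MvPowerSeries.coeff (ind T) (lam (comb a b)) = G T.card) :
    MvPowerSeries.coeff (ind S) (lam (comb a b)) =
      -(MvPowerSeries.coeff (ind S) a • adj + MvPowerSeries.coeff (ind S) b • (1 : K)) -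
      ∑ j ∈ Finset.range n, n.choose j • ((al (j + 1) • adj + be (j + 1) • (1 : K)) * G (n - j)) := by
  have hne : S.Nonempty := by
    rw [← Finset.card_pos]; omega
  obtain ⟨i, hi⟩ := hne
  have hc : (S.erase i).card = n := by
    rw [Finset.card_erase_of_mem hi, hS]; rfl
  rw [lam_rec _ S i hi]
  let F : ℕ → K := fun j => if j < n then (al (j + 1) • adj + be (j + 1) • (1 : K)) * G (n - j)
    else MvPowerSeries.coeff (ind S) a • adj + MvPowerSeries.coeff (ind S) b • (1 : K)
  have h1 : ∀ T ∈ (S.erase i).powerset,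
      MvPowerSeries.coeff (ind (insert i T)) (comb a b) *
        MvPowerSeries.coeff (ind (S \ insert i T)) (lam (comb a b)) = F T.card := by
    intro T hT
    rw [Finset.mem_powerset] at hT
    have hiT : i ∉ T := fun h => Finset.notMem_erase i S (hT h)
    have hcT : T.card ≤ n := hc ▸ Finset.card_le_card hT
    have hsub : insert i T ⊆ S := by
      intro j hj
      rcases Finset.mem_insert.1 hj with rfl | hj
      · exact hi
      · exact Finset.mem_of_mem_erase (hT hj)
    have hci : (insert i T).card = T.card + 1 := Finset.card_insert_of_notMem hiT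
    have hcs : (S \ insert i T).card = n - T.card := by
      rw [Finset.card_sdiff_of_subset hsub, hS, hci]; omega
    rw [IHg _ (by omega), hcs, coeff_comb]
    by_cases h : T.card < n
    · obtain ⟨h2, h3⟩ := IH (insert i T) (by omega) (by omega)
      simp only [F, if_pos h]
      rw [h2, h3, hci]
    · have h4 : T = S.erase i := Finset.eq_of_subset_of_card_le hT (by omega)
      have h5 : n - T.card = 0 := by omega
      simp only [F, if_neg h]
      rw [h5, h4, Finset.insert_erase hi, G, mul_one]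
  rw [Finset.sum_congr rfl h1, Finset.sum_powerset_apply_card, hc, Finset.sum_range_succ,
    Nat.choose_self, one_smul]
  have h2 : ∑ m ∈ Finset.range n, n.choose m • F m = ∑ j ∈ Finset.range n,
      n.choose j • ((al (j + 1) • adj + be (j + 1) • (1 : K)) * G (n - j)) := by
    apply Finset.sum_congr rfl
    intro j hj
    rw [Finset.mem_range] at hj
    simp only [F, if_pos hj]
  have h3 : F n = MvPowerSeries.coeff (ind S) a • adj + MvPowerSeries.coeff (ind S) b • (1 : K) := by
    simp only [F, lt_irrefl, if_false]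
  rw [h2, h3]
  abel

lemma coeff_sum_X (S : Finset (Fin D)) (hS : 2 ≤ S.card) :
    MvPowerSeries.coeff (ind S) (∑ i, MvPowerSeries.X i : MvPowerSeries (Fin D) ℤ) = 0 := by
  rw [map_sum]
  apply Finset.sum_eq_zero
  intro i _
  rw [MvPowerSeries.coeff_X, if_neg]
  intro h
  have h1 : ind S = ind {i} := by rw [h]; simp [ind]
  have h2 := ind_inj h1
  rw [h2] at hS
  simp at hS

lemma coeff_sum_X_one (S : Finset (Fin D)) (hS : S.card = 1) :
    MvPowerSeries.coeff (ind S) (∑ i, MvPowerSeries.X i : MvPowerSeries (Fin D) ℤ) = 1 := by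
  obtain ⟨j, rfl⟩ := Finset.card_eq_one.1 hS
  rw [map_sum, Finset.sum_eq_single j]
  · rw [MvPowerSeries.coeff_X, if_pos]
    simp [ind]
  · intro i _ hij
    rw [MvPowerSeries.coeff_X, if_neg]
    intro h
    have h1 : ind {j} = ind {i} := by rw [h]; simp [ind]
    have h2 := ind_inj h1
    exact hij (Finset.singleton_injective h2).symm
  · intro h; exact absurd (Finset.mem_univ _) h

variable {a b}

lemma triv_eq (h : IsShangPair a b) (S : Finset (Fin D)) (hS : 1 ≤ S.card) :
    mult (0, 0) (MvPowerSeries.coeff (ind S) (lam (comb a b))) = 0 := by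
  have h1 : MvPowerSeries.coeff (ind S) (multSeries (0, 0) (lam (comb a b))) = 
    MvPowerSeries.coeff (ind S) 1 := by rw [h.triv]
  have h2 : ind S ≠ 0 := by
    intro h3
    rw [ind_eq_zero] at h3
    rw [h3] at hS
    simp at hS
  rw [MvPowerSeries.coeff_one, if_neg h2] at h1
  exact h1

lemma adjoint_eq (h : IsShangPair a b) (S : Finset (Fin D)) :
    mult (1, 1) (MvPowerSeries.coeff (ind S) (lam (comb a b))) =
      - MvPowerSeries.coeff (ind S) (∑ i, MvPowerSeries.X i : MvPowerSeries (Fin D) ℤ) := by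
  have h1 : MvPowerSeries.coeff (ind S) (multSeries (1, 1) (lam (comb a b))) =
    MvPowerSeries.coeff (ind S) (- ∑ i, MvPowerSeries.X i : MvPowerSeries (Fin D) ℤ) := by
    rw [h.adjoint]
  rw [map_neg] at h1
  exact h1

end

end Pool.Agent.W442.Shang
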