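import Mathlib
import Pool.Agent.W442.Shang.Main

set_option linter.unusedSectionVars false
set_option linter.unusedSimpArgs false
set_option linter.unusedVariables false

namespace Pool.Agent.W442.Shang

/-- The polynomial in the adjoint character with the given list of coefficients. -/
noncomputable def pol (c : List ℤ) : K := ∑ k ∈ Finset.range c.length, c.getD k 0 • adj ^ k

lemma multI_pol (c : List ℤ) (hc : c.length ≤ 10) : mult (0, 0) (pol c) =
    ∑ k ∈ Finset.range c.length,
      c.getD k 0 * [1, 0, 1, 2, 8, 32, 145, 702, 3598, 19280].getD k 0 := by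
  rw [← multHom_apply, pol, map_sum]
  apply Finset.sum_congr rfl
  intro k hk
  rw [Finset.mem_range] at hk
  rw [map_smul, multHom_apply, multI k (by omega), smul_eq_mul]

lemma multJ_pol (c : List ℤ) (hc : c.length ≤ 10) : mult (1, 1) (pol c) =
    ∑ k ∈ Finset.range c.length,
      c.getD k 0 * [0, 1, 2, 8, 32, 145, 702, 3598, 19280, 107160].getD k 0 := by
  rw [← multHom_apply, pol, map_sum]
  apply Finset.sum_congr rfl
  intro k hk
  rw [Finset.mem_range] at hk
  rw [map_smul, multHom_apply, multJ k (by omega), smul_eq_mul]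

lemma mult_adj0 : mult (0, 0) adj = 0 := by
  have := multI 1 (by norm_num)
  rw [pow_one] at this
  rw [this]; rfl

lemma mult_adj1 : mult (1, 1) adj = 1 := by
  have := multJ 1 (by norm_num)
  rw [pow_one] at this
  rw [this]; rfl

lemma mult_one0 : mult (0, 0) 1 = 1 := by
  have := multI 0 (by norm_num)
  rw [pow_zero] at this
  rw [this]; rfl

lemma mult_one1 : mult (1, 1) 1 = 0 := by
  have := multJ 0 (by norm_num)
  rw [pow_zero] at this
  rw [this]; rfl

lemma solveI {x y : ℤ} {g q : K} (h : g = -(x • adj + y • (1 : K)) - q) :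
    y = - mult (0, 0) q - mult (0, 0) g := by
  rw [h]
  rw [← multHom_apply, ← multHom_apply, map_sub, map_neg, map_add, map_smul, map_smul,
    multHom_apply (0, 0) adj, multHom_apply (0, 0) 1, mult_adj0, mult_one0, multHom_apply]
  simp only [smul_eq_mul]
  ring

lemma solveJ {x y : ℤ} {g q : K} (h : g = -(x • adj + y • (1 : K)) - q) :
    x = - mult (1, 1) q - mult (1, 1) g := by
  rw [h]
  rw [← multHom_apply, ← multHom_apply, map_sub, map_neg, map_add, map_smul, map_smul,
    multHom_apply (1, 1) adj, multHom_apply (1, 1) 1, mult_adj1, mult_one1, multHom_apply]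
  simp only [smul_eq_mul]
  ring

lemma Q0 : ∑ j ∈ Finset.range 0, (0 : ℕ).choose j •
    ((al (j + 1) • adj + be (j + 1) • (1 : K)) * G (0 - j)) = pol [0] := by
  simp [Finset.sum_range_succ, pol, al, be, G, Nat.choose]
  try ring

lemma Q1 : ∑ j ∈ Finset.range 1, (1 : ℕ).choose j •
    ((al (j + 1) • adj + be (j + 1) • (1 : K)) * G (1 - j)) = pol [0, 0, -1] := by
  simp [Finset.sum_range_succ, pol, al, be, G, Nat.choose]
  try ring

lemma Q2 : ∑ j ∈ Finset.range 2, (2 : ℕ).choose j •
    ((al (j + 1) • adj + be (j + 1) • (1 : K)) * G (2 - j)) = pol [0, -3, -6, 1] := by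
  simp [Finset.sum_range_succ, pol, al, be, G, Nat.choose]
  try ring

lemma Q3 : ∑ j ∈ Finset.range 3, (3 : ℕ).choose j •
    ((al (j + 1) • adj + be (j + 1) • (1 : K)) * G (3 - j)) = pol [-3, -28, -34, 12, -1] := by
  simp [Finset.sum_range_succ, pol, al, be, G, Nat.choose]
  try ring

lemma Q4 : ∑ j ∈ Finset.range 4, (4 : ℕ).choose j •
    ((al (j + 1) • adj + be (j + 1) • (1 : K)) * G (4 - j)) = pol [-40, -240, -200, 120, -20, 1] := by
  simp [Finset.sum_range_succ, pol, al, be, G, Nat.choose]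
  try ring

lemma Q5 : ∑ j ∈ Finset.range 5, (5 : ℕ).choose j •
    ((al (j + 1) • adj + be (j + 1) • (1 : K)) * G (5 - j)) = pol [-460, -2108, -1150, 1180, -305, 30, -1] := by
  simp [Finset.sum_range_succ, pol, al, be, G, Nat.choose]
  try ring

lemma Q6 : ∑ j ∈ Finset.range 6, (6 : ℕ).choose j •
    ((al (j + 1) • adj + be (j + 1) • (1 : K)) * G (6 - j)) = pol [-5208, -19166, -5222, 11725, -4340, 644, -42, 1] := by
  simp [Finset.sum_range_succ, pol, al, be, G, Nat.choose]
  try ring

lemma Q7 : ∑ j ∈ Finset.range 7, (7 : ℕ).choose j •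
    ((al (j + 1) • adj + be (j + 1) • (1 : K)) * G (7 - j)) = pol [-59822, -177672, 6300, 116592, -60900, 12376, -1204, 56, -1] := by
  simp [Finset.sum_range_succ, pol, al, be, G, Nat.choose]
  try ring

lemma Q8 : ∑ j ∈ Finset.range 8, (8 : ℕ).choose j •
    ((al (j + 1) • adj + be (j + 1) • (1 : K)) * G (8 - j)) = pol [-698864, -1624206, 732576, 1118320, -856632, 228522, -29904, 2064, -72, 1] := by
  simp [Finset.sum_range_succ, pol, al, be, G, Nat.choose]
  try ring

section

variable {D : ℕ} {a b : MvPowerSeries (Fin D) ℤ}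

/-- What is known about the sets with at most `n` elements. -/
def Known (a b : MvPowerSeries (Fin D) ℤ) (n : ℕ) : Prop :=
  (∀ T : Finset (Fin D), 1 ≤ T.card → T.card ≤ n →
      MvPowerSeries.coeff (ind T) a = al T.card ∧ MvPowerSeries.coeff (ind T) b = be T.card) ∧
    (∀ T : Finset (Fin D), T.card ≤ n →
      MvPowerSeries.coeff (ind T) (lam (comb a b)) = G T.card)

lemma known0 (h : IsShangPair a b) : Known a b 0 := by
  refine ⟨fun T h1 h2 => by omega, fun T h2 => ?_⟩
  have h3 : T = ∅ := by simpa using h2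
  subst h3
  rw [lam_empty, Finset.card_empty, G]

lemma known1 (h : IsShangPair a b) : Known a b 1 := by
  obtain ⟨h1, h2⟩ := known0 h
  have h3 : ∀ S : Finset (Fin D), S.card = 0 + 1 → MvPowerSeries.coeff (ind S) a = 1 ∧
      MvPowerSeries.coeff (ind S) b = 0 ∧ MvPowerSeries.coeff (ind S) (lam (comb a b)) = G 1 := by
    intro S hS
    have h4 := step a b 0 S hS h1 h2
    rw [Q0] at h4
    have h5 := solveI h4
    have h6 := solveJ h4
    rw [triv_eq h S (by omega), multI_pol _ (by decide)] at h5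
    rw [adjoint_eq h S, coeff_sum_X_one S hS, multJ_pol _ (by decide)] at h6
    have h7 : MvPowerSeries.coeff (ind S) b = 0 := by rw [h5]; decide +kernel
    have h8 : MvPowerSeries.coeff (ind S) a = 1 := by rw [h6]; decide +kernel
    refine ⟨h8, h7, ?_⟩
    rw [h4, h7, h8]
    simp [Finset.sum_range_succ, pol, G]
    try ring
  refine ⟨fun T hT hT2 => ?_, fun T hT => ?_⟩
  · by_cases hc : T.card ≤ 0
    · exact h1 T hT hc
    · have hc2 : T.card = 0 + 1 := by omega
      obtain ⟨h4, h5, h6⟩ := h3 T hc2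
      rw [h4, h5, hc2]
      exact ⟨rfl, rfl⟩
  · by_cases hc : T.card ≤ 0
    · exact h2 T hc
    · have hc2 : T.card = 0 + 1 := by omega
      rw [(h3 T hc2).2.2, hc2]

lemma known2 (h : IsShangPair a b) : Known a b 2 := by
  obtain ⟨h1, h2⟩ := known1 h
  have h3 : ∀ S : Finset (Fin D), S.card = 1 + 1 → MvPowerSeries.coeff (ind S) a = 2 ∧
      MvPowerSeries.coeff (ind S) b = 1 ∧ MvPowerSeries.coeff (ind S) (lam (comb a b)) = G 2 := by
    intro S hS
    have h4 := step a b 1 S hS h1 h2
    rw [Q1] at h4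
    have h5 := solveI h4
    have h6 := solveJ h4
    rw [triv_eq h S (by omega), multI_pol _ (by decide)] at h5
    rw [adjoint_eq h S, coeff_sum_X S (by omega), multJ_pol _ (by decide)] at h6
    have h7 : MvPowerSeries.coeff (ind S) b = 1 := by rw [h5]; decide +kernel
    have h8 : MvPowerSeries.coeff (ind S) a = 2 := by rw [h6]; decide +kernel
    refine ⟨h8, h7, ?_⟩
    rw [h4, h7, h8]
    simp [Finset.sum_range_succ, pol, G]
    try ring
  refine ⟨fun T hT hT2 => ?_, fun T hT => ?_⟩
  · by_cases hc : T.card ≤ 1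
    · exact h1 T hT hc
    · have hc2 : T.card = 1 + 1 := by omega
      obtain ⟨h4, h5, h6⟩ := h3 T hc2
      rw [h4, h5, hc2]
      exact ⟨rfl, rfl⟩
  · by_cases hc : T.card ≤ 1
    · exact h2 T hc
    · have hc2 : T.card = 1 + 1 := by omega
      rw [(h3 T hc2).2.2, hc2]

lemma known3 (h : IsShangPair a b) : Known a b 3 := by
  obtain ⟨h1, h2⟩ := known2 h
  have h3 : ∀ S : Finset (Fin D), S.card = 2 + 1 → MvPowerSeries.coeff (ind S) a = 7 ∧
      MvPowerSeries.coeff (ind S) b = 4 ∧ MvPowerSeries.coeff (ind S) (lam (comb a b)) = G 3 := by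
    intro S hS
    have h4 := step a b 2 S hS h1 h2
    rw [Q2] at h4
    have h5 := solveI h4
    have h6 := solveJ h4
    rw [triv_eq h S (by omega), multI_pol _ (by decide)] at h5
    rw [adjoint_eq h S, coeff_sum_X S (by omega), multJ_pol _ (by decide)] at h6
    have h7 : MvPowerSeries.coeff (ind S) b = 4 := by rw [h5]; decide +kernel
    have h8 : MvPowerSeries.coeff (ind S) a = 7 := by rw [h6]; decide +kernel
    refine ⟨h8, h7, ?_⟩
    rw [h4, h7, h8]
    simp [Finset.sum_range_succ, pol, G]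
    try ring
  refine ⟨fun T hT hT2 => ?_, fun T hT => ?_⟩
  · by_cases hc : T.card ≤ 2
    · exact h1 T hT hc
    · have hc2 : T.card = 2 + 1 := by omega
      obtain ⟨h4, h5, h6⟩ := h3 T hc2
      rw [h4, h5, hc2]
      exact ⟨rfl, rfl⟩
  · by_cases hc : T.card ≤ 2
    · exact h2 T hc
    · have hc2 : T.card = 2 + 1 := by omega
      rw [(h3 T hc2).2.2, hc2]

lemma known4 (h : IsShangPair a b) : Known a b 4 := by
  obtain ⟨h1, h2⟩ := known3 h
  have h3 : ∀ S : Finset (Fin D), S.card = 3 + 1 → MvPowerSeries.coeff (ind S) a = 32 ∧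
      MvPowerSeries.coeff (ind S) b = 21 ∧ MvPowerSeries.coeff (ind S) (lam (comb a b)) = G 4 := by
    intro S hS
    have h4 := step a b 3 S hS h1 h2
    rw [Q3] at h4
    have h5 := solveI h4
    have h6 := solveJ h4
    rw [triv_eq h S (by omega), multI_pol _ (by decide)] at h5
    rw [adjoint_eq h S, coeff_sum_X S (by omega), multJ_pol _ (by decide)] at h6
    have h7 : MvPowerSeries.coeff (ind S) b = 21 := by rw [h5]; decide +kernel
    have h8 : MvPowerSeries.coeff (ind S) a = 32 := by rw [h6]; decide +kernel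
    refine ⟨h8, h7, ?_⟩
    rw [h4, h7, h8]
    simp [Finset.sum_range_succ, pol, G]
    try ring
  refine ⟨fun T hT hT2 => ?_, fun T hT => ?_⟩
  · by_cases hc : T.card ≤ 3
    · exact h1 T hT hc
    · have hc2 : T.card = 3 + 1 := by omega
      obtain ⟨h4, h5, h6⟩ := h3 T hc2
      rw [h4, h5, hc2]
      exact ⟨rfl, rfl⟩
  · by_cases hc : T.card ≤ 3
    · exact h2 T hc
    · have hc2 : T.card = 3 + 1 := by omega
      rw [(h3 T hc2).2.2, hc2]

lemma known5 (h : IsShangPair a b) : Known a b 5 := by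
  obtain ⟨h1, h2⟩ := known4 h
  have h3 : ∀ S : Finset (Fin D), S.card = 4 + 1 → MvPowerSeries.coeff (ind S) a = 175 ∧
      MvPowerSeries.coeff (ind S) b = 128 ∧ MvPowerSeries.coeff (ind S) (lam (comb a b)) = G 5 := by
    intro S hS
    have h4 := step a b 4 S hS h1 h2
    rw [Q4] at h4
    have h5 := solveI h4
    have h6 := solveJ h4
    rw [triv_eq h S (by omega), multI_pol _ (by decide)] at h5
    rw [adjoint_eq h S, coeff_sum_X S (by omega), multJ_pol _ (by decide)] at h6
    have h7 : MvPowerSeries.coeff (ind S) b = 128 := by rw [h5]; decide +kernel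
    have h8 : MvPowerSeries.coeff (ind S) a = 175 := by rw [h6]; decide +kernel
    refine ⟨h8, h7, ?_⟩
    rw [h4, h7, h8]
    simp [Finset.sum_range_succ, pol, G]
    try ring
  refine ⟨fun T hT hT2 => ?_, fun T hT => ?_⟩
  · by_cases hc : T.card ≤ 4
    · exact h1 T hT hc
    · have hc2 : T.card = 4 + 1 := by omega
      obtain ⟨h4, h5, h6⟩ := h3 T hc2
      rw [h4, h5, hc2]
      exact ⟨rfl, rfl⟩
  · by_cases hc : T.card ≤ 4
    · exact h2 T hc
    · have hc2 : T.card = 4 + 1 := by omega
      rw [(h3 T hc2).2.2, hc2]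

lemma known6 (h : IsShangPair a b) : Known a b 6 := by
  obtain ⟨h1, h2⟩ := known5 h
  have h3 : ∀ S : Finset (Fin D), S.card = 5 + 1 → MvPowerSeries.coeff (ind S) a = 1080 ∧
      MvPowerSeries.coeff (ind S) b = 875 ∧ MvPowerSeries.coeff (ind S) (lam (comb a b)) = G 6 := by
    intro S hS
    have h4 := step a b 5 S hS h1 h2
    rw [Q5] at h4
    have h5 := solveI h4
    have h6 := solveJ h4
    rw [triv_eq h S (by omega), multI_pol _ (by decide)] at h5
    rw [adjoint_eq h S, coeff_sum_X S (by omega), multJ_pol _ (by decide)] at h6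
    have h7 : MvPowerSeries.coeff (ind S) b = 875 := by rw [h5]; decide +kernel
    have h8 : MvPowerSeries.coeff (ind S) a = 1080 := by rw [h6]; decide +kernel
    refine ⟨h8, h7, ?_⟩
    rw [h4, h7, h8]
    simp [Finset.sum_range_succ, pol, G]
    try ring
  refine ⟨fun T hT hT2 => ?_, fun T hT => ?_⟩
  · by_cases hc : T.card ≤ 5
    · exact h1 T hT hc
    · have hc2 : T.card = 5 + 1 := by omega
      obtain ⟨h4, h5, h6⟩ := h3 T hc2
      rw [h4, h5, hc2]
      exact ⟨rfl, rfl⟩
  · by_cases hc : T.card ≤ 5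
    · exact h2 T hc
    · have hc2 : T.card = 5 + 1 := by omega
      rw [(h3 T hc2).2.2, hc2]

lemma known7 (h : IsShangPair a b) : Known a b 7 := by
  obtain ⟨h1, h2⟩ := known6 h
  have h3 : ∀ S : Finset (Fin D), S.card = 6 + 1 → MvPowerSeries.coeff (ind S) a = 7196 ∧
      MvPowerSeries.coeff (ind S) b = 6480 ∧ MvPowerSeries.coeff (ind S) (lam (comb a b)) = G 7 := by
    intro S hS
    have h4 := step a b 6 S hS h1 h2
    rw [Q6] at h4
    have h5 := solveI h4
    have h6 := solveJ h4
    rw [triv_eq h S (by omega), multI_pol _ (by decide)] at h5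
    rw [adjoint_eq h S, coeff_sum_X S (by omega), multJ_pol _ (by decide)] at h6
    have h7 : MvPowerSeries.coeff (ind S) b = 6480 := by rw [h5]; decide +kernel
    have h8 : MvPowerSeries.coeff (ind S) a = 7196 := by rw [h6]; decide +kernel
    refine ⟨h8, h7, ?_⟩
    rw [h4, h7, h8]
    simp [Finset.sum_range_succ, pol, G]
    try ring
  refine ⟨fun T hT hT2 => ?_, fun T hT => ?_⟩
  · by_cases hc : T.card ≤ 6
    · exact h1 T hT hc
    · have hc2 : T.card = 6 + 1 := by omega
      obtain ⟨h4, h5, h6⟩ := h3 T hc2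
      rw [h4, h5, hc2]
      exact ⟨rfl, rfl⟩
  · by_cases hc : T.card ≤ 6
    · exact h2 T hc
    · have hc2 : T.card = 6 + 1 := by omega
      rw [(h3 T hc2).2.2, hc2]

lemma known8 (h : IsShangPair a b) : Known a b 8 := by
  obtain ⟨h1, h2⟩ := known7 h
  have h3 : ∀ S : Finset (Fin D), S.card = 7 + 1 → MvPowerSeries.coeff (ind S) a = 49616 ∧
      MvPowerSeries.coeff (ind S) b = 50372 ∧ MvPowerSeries.coeff (ind S) (lam (comb a b)) = G 8 := by
    intro S hS
    have h4 := step a b 7 S hS h1 h2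
    rw [Q7] at h4
    have h5 := solveI h4
    have h6 := solveJ h4
    rw [triv_eq h S (by omega), multI_pol _ (by decide)] at h5
    rw [adjoint_eq h S, coeff_sum_X S (by omega), multJ_pol _ (by decide)] at h6
    have h7 : MvPowerSeries.coeff (ind S) b = 50372 := by rw [h5]; decide +kernel
    have h8 : MvPowerSeries.coeff (ind S) a = 49616 := by rw [h6]; decide +kernel
    refine ⟨h8, h7, ?_⟩
    rw [h4, h7, h8]
    simp [Finset.sum_range_succ, pol, G]
    try ring
  refine ⟨fun T hT hT2 => ?_, fun T hT => ?_⟩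
  · by_cases hc : T.card ≤ 7
    · exact h1 T hT hc
    · have hc2 : T.card = 7 + 1 := by omega
      obtain ⟨h4, h5, h6⟩ := h3 T hc2
      rw [h4, h5, hc2]
      exact ⟨rfl, rfl⟩
  · by_cases hc : T.card ≤ 7
    · exact h2 T hc
    · have hc2 : T.card = 7 + 1 := by omega
      rw [(h3 T hc2).2.2, hc2]

/-- The coefficient of `a(V)` at a product of nine different variables. -/
theorem coeff_nine (h : IsShangPair a b) (S : Finset (Fin D)) (hS : S.card = 9) :
    MvPowerSeries.coeff (ind S) a = 336364 := by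
  obtain ⟨h1, h2⟩ := known8 h
  have h4 := step a b 8 S hS h1 h2
  rw [Q8] at h4
  have h6 := solveJ h4
  rw [adjoint_eq h S, coeff_sum_X S (by omega), multJ_pol _ (by decide)] at h6
  rw [h6]
  decide +kernel

end

end Pool.Agent.W442.Shang
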