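import Mathlib
import Pool.Agent.W442.Shang.Nine

set_option linter.unusedSectionVars false

namespace Pool.Agent.W442.Shang

section

variable {σ : Type} [DecidableEq σ]

/-- `F` is `1 + v x ^ n` up to monomials that do not divide `x ^ n`. -/
def Low (F : MvPowerSeries σ K) (n : σ →₀ ℕ) (v : K) : Prop :=
  ∀ p : σ →₀ ℕ, p ≤ n → MvPowerSeries.coeff p F =
    (if p = 0 then 1 else 0) + (if p = n then v else 0)

lemma Low.one (n : σ →₀ ℕ) : Low (1 : MvPowerSeries σ K) n 0 := by
  intro p _
  rw [MvPowerSeries.coeff_one]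
  simp

lemma Low.mul {F G : MvPowerSeries σ K} {n : σ →₀ ℕ} (hn : n ≠ 0) {v w : K}
    (hF : Low F n v) (hG : Low G n w) : Low (F * G) n (v + w) := by
  intro p hp
  rw [MvPowerSeries.coeff_mul]
  have h0 : MvPowerSeries.coeff 0 F = 1 := by
    rw [hF 0 zero_le, if_pos rfl, if_neg hn.symm, add_zero]
  have h0' : MvPowerSeries.coeff 0 G = 1 := by
    rw [hG 0 zero_le, if_pos rfl, if_neg hn.symm, add_zero]
  by_cases hp0 : p = 0
  · subst hp0
    simp only [Finset.HasAntidiagonal.antidiagonal_zero, Finset.sum_singleton]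
    rw [h0, h0', if_pos trivial, if_neg hn.symm]
    simp
  · have h2 : ∑ q ∈ Finset.HasAntidiagonal.antidiagonal p, MvPowerSeries.coeff q.1 F * MvPowerSeries.coeff q.2 G
        = ∑ q ∈ ({(0, p), (p, 0)} : Finset ((σ →₀ ℕ) × (σ →₀ ℕ))),
          MvPowerSeries.coeff q.1 F * MvPowerSeries.coeff q.2 G := by
      symm
      apply Finset.sum_subset
      · intro q hq
        rw [Finset.mem_insert, Finset.mem_singleton] at hq
        rw [Finset.HasAntidiagonal.mem_antidiagonal]
        rcases hq with rfl | rfl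
        · simp
        · simp
      · intro q hq hq1
        rw [Finset.HasAntidiagonal.mem_antidiagonal] at hq
        rw [Finset.mem_insert, Finset.mem_singleton, not_or] at hq1
        have h3 : q.1 ≠ 0 := by
          intro h
          apply hq1.1
          rw [h, zero_add] at hq
          exact Prod.ext h hq
        have h4 : q.2 ≠ 0 := by
          intro h
          apply hq1.2
          rw [h, add_zero] at hq
          exact Prod.ext hq h
        have h5 : q.1 ≤ n := (hq ▸ le_self_add : q.1 ≤ p).trans hp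
        have h6 : q.1 ≠ n := by
          intro h
          have h7 : q.1 + q.2 ≤ q.1 := by rw [hq, h]; exact hp
          have h8 : q.2 ≤ 0 := by
            intro i
            have := h7 i
            simp only [Finsupp.add_apply] at this
            simp only [Finsupp.coe_zero, Pi.zero_apply]
            omega
          exact h4 (le_antisymm h8 zero_le)
        rw [hF _ h5, if_neg h3, if_neg h6, add_zero, zero_mul]
    rw [h2, Finset.sum_pair]
    · rw [h0, h0', hG p hp, hF p hp, if_neg hp0]
      by_cases h : p = n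
      · simp only [h, if_true]; ring
      · simp only [h, if_false]; ring
    · intro h
      exact hp0 (congrArg Prod.fst h).symm

lemma Low.inv {u : (MvPowerSeries σ K)ˣ} {n : σ →₀ ℕ} (hn : n ≠ 0) {v : K}
    (hF : Low (u : MvPowerSeries σ K) n v) :
    Low ((u⁻¹ : (MvPowerSeries σ K)ˣ) : MvPowerSeries σ K) n (-v) := by
  -- the inverse is determined on the monomials dividing `x ^ n`
  intro p
  induction p using WellFoundedLT.induction with
  | _ p ih =>
  intro hp
  have h1 : MvPowerSeries.coeff p ((u : MvPowerSeries σ K) *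
      ((u⁻¹ : (MvPowerSeries σ K)ˣ) : MvPowerSeries σ K)) = if p = 0 then 1 else 0 := by
    rw [Units.mul_inv, MvPowerSeries.coeff_one]
  have h0 : MvPowerSeries.coeff 0 (u : MvPowerSeries σ K) = 1 := by
    rw [hF 0 zero_le, if_pos rfl, if_neg hn.symm, add_zero]
  rw [MvPowerSeries.coeff_mul] at h1
  by_cases hp0 : p = 0
  · subst hp0
    simp only [Finset.HasAntidiagonal.antidiagonal_zero, Finset.sum_singleton] at h1
    rw [h0, one_mul, if_pos trivial] at h1
    rw [h1, if_pos rfl, if_neg hn.symm, add_zero]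
  · have h00 : MvPowerSeries.coeff 0 ((u⁻¹ : (MvPowerSeries σ K)ˣ) : MvPowerSeries σ K) = 1 := by
      have hlt : 0 < p := pos_iff_ne_zero.2 hp0
      rw [ih 0 hlt zero_le, if_pos rfl, if_neg hn.symm, add_zero]
    have h2 : ∑ q ∈ Finset.HasAntidiagonal.antidiagonal p, MvPowerSeries.coeff q.1 (u : MvPowerSeries σ K) *
          MvPowerSeries.coeff q.2 ((u⁻¹ : (MvPowerSeries σ K)ˣ) : MvPowerSeries σ K)
        = ∑ q ∈ ({(0, p), (p, 0)} : Finset ((σ →₀ ℕ) × (σ →₀ ℕ))),
          MvPowerSeries.coeff q.1 (u : MvPowerSeries σ K) *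
          MvPowerSeries.coeff q.2 ((u⁻¹ : (MvPowerSeries σ K)ˣ) : MvPowerSeries σ K) := by
      symm
      apply Finset.sum_subset
      · intro q hq
        rw [Finset.mem_insert, Finset.mem_singleton] at hq
        rw [Finset.HasAntidiagonal.mem_antidiagonal]
        rcases hq with rfl | rfl
        · simp
        · simp
      · intro q hq hq1
        rw [Finset.HasAntidiagonal.mem_antidiagonal] at hq
        rw [Finset.mem_insert, Finset.mem_singleton, not_or] at hq1
        have h3 : q.1 ≠ 0 := by
          intro h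
          apply hq1.1
          rw [h, zero_add] at hq
          exact Prod.ext h hq
        have h4 : q.2 ≠ 0 := by
          intro h
          apply hq1.2
          rw [h, add_zero] at hq
          exact Prod.ext hq h
        have h5 : q.1 ≤ n := (hq ▸ le_self_add : q.1 ≤ p).trans hp
        have h6 : q.1 ≠ n := by
          intro h
          have h7 : q.1 + q.2 ≤ q.1 := by rw [hq, h]; exact hp
          have h8 : q.2 ≤ 0 := by
            intro i
            have := h7 i
            simp only [Finsupp.add_apply] at this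
            simp only [Finsupp.coe_zero, Pi.zero_apply]
            omega
          exact h4 (le_antisymm h8 zero_le)
        rw [hF _ h5, if_neg h3, if_neg h6, add_zero, zero_mul]
    rw [h2, Finset.sum_pair (by intro h; exact hp0 (congrArg Prod.fst h).symm)] at h1
    simp only at h1
    rw [h0, h00, one_mul, mul_one, if_neg hp0, hF p hp, if_neg hp0, zero_add] at h1
    rw [if_neg hp0, zero_add]
    by_cases h5 : p = n
    · rw [if_pos h5] at h1 ⊢
      exact eq_neg_of_add_eq_zero_left h1
    · rw [if_neg h5] at h1 ⊢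
      simpa using h1

lemma Low.zpow {u : (MvPowerSeries σ K)ˣ} {n : σ →₀ ℕ} (hn : n ≠ 0) {v : K}
    (hF : Low (u : MvPowerSeries σ K) n v) (c : ℤ) :
    Low ((u ^ c : (MvPowerSeries σ K)ˣ) : MvPowerSeries σ K) n (c • v) := by
  induction c with
  | zero => simpa using Low.one n
  | succ c ih =>
    have h1 := Low.mul hn ih hF
    rw [← Units.val_mul, ← zpow_add_one] at h1
    convert h1 using 1
    rw [add_smul, one_smul]
  | pred c ih =>
    have h1 := Low.mul hn ih (Low.inv hn hF)
    rw [← Units.val_mul, ← zpow_sub_one] at h1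
    convert h1 using 1
    rw [sub_smul, one_smul, sub_eq_add_neg]

lemma low_oneSub {n : σ →₀ ℕ} (hn : n ≠ 0) (μ : ℤ × ℤ) :
    Low ((oneSub n μ : (MvPowerSeries σ K)ˣ) : MvPowerSeries σ K) n (-(e μ)) := by
  intro p _
  have h1 : ((oneSub n μ : (MvPowerSeries σ K)ˣ) : MvPowerSeries σ K)
      = 1 - MvPowerSeries.monomial n (e μ) := by
    unfold oneSub
    rw [dif_neg hn]
  rw [h1, map_sub, MvPowerSeries.coeff_monomial, MvPowerSeries.coeff_one]
  by_cases h3 : p = n
  · simp [h3, sub_eq_add_neg]
  · simp [h3]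

lemma low_prod {n : σ →₀ ℕ} (hn : n ≠ 0) (s : Finset (ℤ × ℤ)) (c : ℤ × ℤ → ℤ) :
    Low ((∏ μ ∈ s, oneSub n μ ^ (c μ) : (MvPowerSeries σ K)ˣ) : MvPowerSeries σ K) n
      (-∑ μ ∈ s, c μ • e μ) := by
  induction s using Finset.induction_on with
  | empty => simpa using Low.one n
  | insert μ s hμ ih =>
    rw [Finset.prod_insert hμ, Finset.sum_insert hμ, Units.val_mul]
    have h1 := Low.mul hn (Low.zpow hn (low_oneSub hn μ) (c μ)) ih
    convert h1 using 1
    rw [smul_neg, neg_add]

lemma low_fac (f : MvPowerSeries σ K) {n : σ →₀ ℕ} (hn : n ≠ 0) :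
    Low ((fac f n : (MvPowerSeries σ K)ˣ) : MvPowerSeries σ K) n
      (-(MvPowerSeries.coeff n f)) := by
  have h1 := low_prod (σ := σ) hn (MvPowerSeries.coeff n f).coeff.support
    (fun μ => (MvPowerSeries.coeff n f).coeff μ)
  rwa [sum_coeff] at h1

lemma fac_coeff_zero (f : MvPowerSeries σ K) {m : σ →₀ ℕ} (hm : m ≠ 0) :
    MvPowerSeries.coeff 0 ((fac f m : (MvPowerSeries σ K)ˣ) : MvPowerSeries σ K) = 1 := by
  rw [low_fac f hm 0 zero_le, if_pos rfl, if_neg hm.symm, add_zero]

lemma prod_coeff_zero (f : MvPowerSeries σ K) (M : Finset (σ →₀ ℕ)) (hM : ∀ m ∈ M, m ≠ 0) :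
    MvPowerSeries.coeff 0 ((∏ m ∈ M, fac f m : (MvPowerSeries σ K)ˣ) : MvPowerSeries σ K) = 1 := by
  induction M using Finset.induction_on with
  | empty => simp
  | insert m M hm ih =>
    rw [Finset.prod_insert hm, Units.val_mul, MvPowerSeries.coeff_mul]
    simp only [Finset.HasAntidiagonal.antidiagonal_zero, Finset.sum_singleton]
    rw [fac_coeff_zero f (hM m (Finset.mem_insert_self _ _)),
      ih (fun m hm => hM m (Finset.mem_insert_of_mem hm)), one_mul]

/-- The part of the coefficient of `lam f` at `n` that only depends on the smaller coefficients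
of `f`. -/
noncomputable def rest (f : MvPowerSeries σ K) (n : σ →₀ ℕ) : K :=
  MvPowerSeries.coeff n
    ((∏ m ∈ ((Finset.Iic n).erase 0).erase n, fac f m : (MvPowerSeries σ K)ˣ) :
      MvPowerSeries σ K)

lemma rest_congr (f g : MvPowerSeries σ K) (n : σ →₀ ℕ)
    (h : ∀ m < n, MvPowerSeries.coeff m f = MvPowerSeries.coeff m g) : rest f n = rest g n := by
  unfold rest
  congr 2
  apply Finset.prod_congr rfl
  intro m hm
  rw [Finset.mem_erase, Finset.mem_erase, Finset.mem_Iic] at hm
  unfold fac
  rw [h m (lt_of_le_of_ne hm.2.2 hm.1)]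

lemma coeff_lam (f : MvPowerSeries σ K) {n : σ →₀ ℕ} (hn : n ≠ 0) :
    MvPowerSeries.coeff n (lam f) = - MvPowerSeries.coeff n f + rest f n := by
  have h1 : MvPowerSeries.coeff n (lam f) = MvPowerSeries.coeff n
      ((∏ m ∈ (Finset.Iic n).erase 0, fac f m : (MvPowerSeries σ K)ˣ) : MvPowerSeries σ K) := rfl
  have h2 : n ∈ (Finset.Iic n).erase 0 := by
    rw [Finset.mem_erase, Finset.mem_Iic]
    exact ⟨hn, le_rfl⟩
  rw [h1, ← Finset.mul_prod_erase _ _ h2, Units.val_mul, MvPowerSeries.coeff_mul]
  have h3 : ∑ q ∈ Finset.HasAntidiagonal.antidiagonal n, MvPowerSeries.coeff q.1 ((fac f n : (MvPowerSeries σ K)ˣ) : MvPowerSeries σ K) *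
        MvPowerSeries.coeff q.2 ((∏ m ∈ ((Finset.Iic n).erase 0).erase n, fac f m :
          (MvPowerSeries σ K)ˣ) : MvPowerSeries σ K)
      = ∑ q ∈ ({(0, n), (n, 0)} : Finset ((σ →₀ ℕ) × (σ →₀ ℕ))),
        MvPowerSeries.coeff q.1 ((fac f n : (MvPowerSeries σ K)ˣ) : MvPowerSeries σ K) *
        MvPowerSeries.coeff q.2 ((∏ m ∈ ((Finset.Iic n).erase 0).erase n, fac f m :
          (MvPowerSeries σ K)ˣ) : MvPowerSeries σ K) := by
    symm
    apply Finset.sum_subset
    · intro q hq
      rw [Finset.mem_insert, Finset.mem_singleton] at hq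
      rw [Finset.HasAntidiagonal.mem_antidiagonal]
      rcases hq with rfl | rfl
      · simp
      · simp
    · intro q hq hq1
      rw [Finset.HasAntidiagonal.mem_antidiagonal] at hq
      rw [Finset.mem_insert, Finset.mem_singleton, not_or] at hq1
      have h3 : q.1 ≠ 0 := by
        intro h
        apply hq1.1
        rw [h, zero_add] at hq
        exact Prod.ext h hq
      have h4 : q.1 ≠ n := by
        intro h
        apply hq1.2
        rw [h] at hq
        have : q.2 = 0 := by simpa using hq
        exact Prod.ext h this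
      have h5 : q.1 ≤ n := hq ▸ le_self_add
      rw [low_fac f hn _ h5, if_neg h3, if_neg h4, add_zero, zero_mul]
  rw [h3, Finset.sum_pair (by intro h; exact hn (congrArg Prod.fst h).symm)]
  simp only
  rw [fac_coeff_zero f hn, one_mul, prod_coeff_zero f _ (fun m hm => by
      rw [Finset.mem_erase, Finset.mem_erase] at hm; exact hm.2.1), mul_one,
    low_fac f hn n le_rfl, if_neg hn, if_pos rfl, zero_add]
  unfold rest
  ring

lemma coeff_lam_zero (f : MvPowerSeries σ K) : MvPowerSeries.coeff 0 (lam f) = 1 := by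
  have h1 : MvPowerSeries.coeff 0 (lam f) = MvPowerSeries.coeff 0
      ((∏ m ∈ (Finset.Iic (0 : σ →₀ ℕ)).erase 0, fac f m : (MvPowerSeries σ K)ˣ) :
        MvPowerSeries σ K) := rfl
  rw [h1, prod_coeff_zero]
  intro m hm
  exact (Finset.mem_erase.1 hm).1

end

section

variable {D : ℕ}

lemma mult0_comb (a b : MvPowerSeries (Fin D) ℤ) (n : Fin D →₀ ℕ) (r : K) :
    mult (0, 0) (-(MvPowerSeries.coeff n (comb a b)) + r) =
      - MvPowerSeries.coeff n b + mult (0, 0) r := by
  have h1 : MvPowerSeries.coeff n (comb a b) =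
    MvPowerSeries.coeff n a • adj + MvPowerSeries.coeff n b • (1 : K) := rfl
  rw [h1, ← multHom_apply, map_add, map_neg, map_add, map_smul, map_smul,
    multHom_apply (0, 0) adj, multHom_apply (0, 0) 1, mult_adj0, mult_one0, multHom_apply]
  simp

lemma mult1_comb (a b : MvPowerSeries (Fin D) ℤ) (n : Fin D →₀ ℕ) (r : K) :
    mult (1, 1) (-(MvPowerSeries.coeff n (comb a b)) + r) =
      - MvPowerSeries.coeff n a + mult (1, 1) r := by
  have h1 : MvPowerSeries.coeff n (comb a b) =
    MvPowerSeries.coeff n a • adj + MvPowerSeries.coeff n b • (1 : K) := rfl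
  rw [h1, ← multHom_apply, map_add, map_neg, map_add, map_smul, map_smul,
    multHom_apply (1, 1) adj, multHom_apply (1, 1) 1, mult_adj1, mult_one1, multHom_apply]
  simp

/-- Characterization of the pairs by a recursion. -/
lemma isShangPair_iff (a b : MvPowerSeries (Fin D) ℤ) : IsShangPair a b ↔
    MvPowerSeries.coeff 0 a = 0 ∧ MvPowerSeries.coeff 0 b = 0 ∧ ∀ n : Fin D →₀ ℕ, n ≠ 0 →
      MvPowerSeries.coeff n a = mult (1, 1) (rest (comb a b) n) +
        MvPowerSeries.coeff n (∑ i, MvPowerSeries.X i : MvPowerSeries (Fin D) ℤ) ∧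
      MvPowerSeries.coeff n b = mult (0, 0) (rest (comb a b) n) := by
  constructor
  · intro h
    refine ⟨h.a_zero, h.b_zero, fun n hn => ⟨?_, ?_⟩⟩
    · have h1 : MvPowerSeries.coeff n (multSeries (1, 1) (lam (comb a b))) =
        MvPowerSeries.coeff n (- ∑ i, MvPowerSeries.X i : MvPowerSeries (Fin D) ℤ) := by
        rw [h.adjoint]
      have h2 : MvPowerSeries.coeff n (multSeries (1, 1) (lam (comb a b))) =
        mult (1, 1) (MvPowerSeries.coeff n (lam (comb a b))) := rfl
      rw [h2, coeff_lam _ hn, mult1_comb, map_neg] at h1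
      linarith
    · have h1 : MvPowerSeries.coeff n (multSeries (0, 0) (lam (comb a b))) =
        MvPowerSeries.coeff n (1 : MvPowerSeries (Fin D) ℤ) := by
        rw [h.triv]
      have h2 : MvPowerSeries.coeff n (multSeries (0, 0) (lam (comb a b))) =
        mult (0, 0) (MvPowerSeries.coeff n (lam (comb a b))) := rfl
      rw [h2, coeff_lam _ hn, mult0_comb, MvPowerSeries.coeff_one, if_neg hn] at h1
      linarith
  · rintro ⟨h1, h2, h3⟩
    refine ⟨h1, h2, ?_, ?_⟩
    · ext n
      have h4 : MvPowerSeries.coeff n (multSeries (0, 0) (lam (comb a b))) =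
        mult (0, 0) (MvPowerSeries.coeff n (lam (comb a b))) := rfl
      by_cases hn : n = 0
      · subst hn
        rw [h4, coeff_lam_zero, mult_one0]
        simp
      · rw [h4, coeff_lam _ hn, mult0_comb, MvPowerSeries.coeff_one, if_neg hn, (h3 n hn).2]
        ring
    · ext n
      have h4 : MvPowerSeries.coeff n (multSeries (1, 1) (lam (comb a b))) =
        mult (1, 1) (MvPowerSeries.coeff n (lam (comb a b))) := rfl
      by_cases hn : n = 0
      · subst hn
        rw [h4, coeff_lam_zero, mult_one1]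
        simp
      · rw [h4, coeff_lam _ hn, mult1_comb, map_neg, (h3 n hn).1]
        ring

/-- Uniqueness of the pair. -/
theorem unique_pair {a b a' b' : MvPowerSeries (Fin D) ℤ} (h : IsShangPair a b)
    (h' : IsShangPair a' b') : a' = a ∧ b' = b := by
  rw [isShangPair_iff] at h h'
  have key : ∀ n : Fin D →₀ ℕ, MvPowerSeries.coeff n a' = MvPowerSeries.coeff n a ∧
      MvPowerSeries.coeff n b' = MvPowerSeries.coeff n b := by
    intro n
    induction n using WellFoundedLT.induction with
    | _ n ih =>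
    by_cases hn : n = 0
    · subst hn
      rw [h.1, h'.1, h.2.1, h'.2.1]
      exact ⟨rfl, rfl⟩
    · obtain ⟨h1, h2⟩ := h.2.2 n hn
      obtain ⟨h1', h2'⟩ := h'.2.2 n hn
      have h3 : rest (comb a' b') n = rest (comb a b) n := by
        apply rest_congr
        intro m hm
        have h4 : MvPowerSeries.coeff m (comb a' b') =
          MvPowerSeries.coeff m a' • adj + MvPowerSeries.coeff m b' • (1 : K) := rfl
        have h5 : MvPowerSeries.coeff m (comb a b) =
          MvPowerSeries.coeff m a • adj + MvPowerSeries.coeff m b • (1 : K) := rfl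
        rw [h4, h5, (ih m hm).1, (ih m hm).2]
      rw [h1, h1', h2, h2', h3]
      exact ⟨rfl, rfl⟩
  exact ⟨MvPowerSeries.ext fun n => (key n).1, MvPowerSeries.ext fun n => (key n).2⟩

/-- The recursive construction of the pair. -/
noncomputable def pairAux (D : ℕ) : (Fin D →₀ ℕ) → ℤ × ℤ :=
  WellFounded.fix (C := fun _ => ℤ × ℤ) (wellFounded_lt (α := Fin D →₀ ℕ))
    fun n F => by
      classical
      exact if n = 0 then (0, 0) else
        let f : MvPowerSeries (Fin D) K := fun m =>
          if h : m < n then (F m h).1 • adj + (F m h).2 • (1 : K) else 0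
        (mult (1, 1) (rest f n) +
          MvPowerSeries.coeff n (∑ i, MvPowerSeries.X i : MvPowerSeries (Fin D) ℤ),
          mult (0, 0) (rest f n))

/-- Existence of the pair. -/
theorem exists_pair (D : ℕ) : ∃ a b : MvPowerSeries (Fin D) ℤ, IsShangPair a b := by
  classical
  let a : MvPowerSeries (Fin D) ℤ := fun n => (pairAux D n).1
  let b : MvPowerSeries (Fin D) ℤ := fun n => (pairAux D n).2
  have ha : ∀ n, MvPowerSeries.coeff n a = (pairAux D n).1 := fun n => rfl
  have hb : ∀ n, MvPowerSeries.coeff n b = (pairAux D n).2 := fun n => rfl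
  have hcomb : ∀ n, MvPowerSeries.coeff n (comb a b) =
    MvPowerSeries.coeff n a • adj + MvPowerSeries.coeff n b • (1 : K) := fun n => rfl
  refine ⟨a, b, (isShangPair_iff a b).2 ⟨?_, ?_, fun n hn => ?_⟩⟩
  · rw [ha]
    unfold pairAux
    rw [WellFounded.fix_eq, if_pos rfl]
  · rw [hb]
    unfold pairAux
    rw [WellFounded.fix_eq, if_pos rfl]
  · have h1 : pairAux D n = (mult (1, 1) (rest (fun m => if h : m < n then
        (pairAux D m).1 • adj + (pairAux D m).2 • (1 : K) else 0) n) +
          MvPowerSeries.coeff n (∑ i, MvPowerSeries.X i : MvPowerSeries (Fin D) ℤ),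
          mult (0, 0) (rest (fun m => if h : m < n then
        (pairAux D m).1 • adj + (pairAux D m).2 • (1 : K) else 0) n)) := by
      conv_lhs => unfold pairAux
      rw [WellFounded.fix_eq, if_neg hn]
      rfl
    have h2 : rest (fun m => if h : m < n then
        (pairAux D m).1 • adj + (pairAux D m).2 • (1 : K) else 0) n = rest (comb a b) n := by
      apply rest_congr
      intro m hm
      rw [hcomb, ha, hb]
      change (if h : m < n then
        (pairAux D m).1 • adj + (pairAux D m).2 • (1 : K) else 0) = _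
      rw [dif_pos hm]
    rw [h2] at h1
    rw [ha, hb, h1]
    exact ⟨rfl, rfl⟩

end

end Pool.Agent.W442.Shang
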